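import Pool.Agent.H802.KalaiEq.Trees

/-! The averaging argument for tight trees with its slack terms kept. -/

set_option autoImplicit false

namespace Pool.Agent.H802.KalaiEq

open Finset ES903 H223R3.Kalai H223R3.Kalai.HT

section avg

variable {V : Type*} [DecidableEq V] [Fintype V] {d : ℕ}

/-- the loss in the averaging argument at the root `u` -/
noncomputable def slack (H : Finset (Finset V)) (p : Fin d → (Fin d → V) → Finset V → Prop)
    (u : Fin d → V) : ℚ :=
  ∑ x ∈ univ \ Nb H u, (E univ (Fail (Plant H p u)) -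
    E univ (fun S => Fail (Plant H p u) (insert x S)))

theorem slack_term_nonneg (H : Finset (Finset V)) (p : Fin d → (Fin d → V) → Finset V → Prop)
    (u : Fin d → V) (x : V) :
    0 ≤ E univ (Fail (Plant H p u)) - E univ (fun S => Fail (Plant H p u) (insert x S)) := by
  have : E univ (fun S => Fail (Plant H p u) (insert x S)) ≤ E univ (Fail (Plant H p u)) := by
    apply E_mono
    intro S _
    apply Fail_mono
    exact Plant_mono H p u S _ (Finset.subset_insert _ _)
  linarith

theorem slack_nonneg (H : Finset (Finset V)) (p : Fin d → (Fin d → V) → Finset V → Prop)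
    (u : Fin d → V) : 0 ≤ slack H p u :=
  Finset.sum_nonneg (fun x _ => slack_term_nonneg H p u x)

theorem plant_fix (H : Finset (Finset V)) (p : Fin d → (Fin d → V) → Finset V → Prop)
    (u : Fin d → V) :
    (((Nb H u).card : ℚ) + 1) * E univ (Fail (Plant H p u)) + slack H p u ≤
      ((Fintype.card V : ℚ) + 1) +
      ∑ w ∈ Nb H u, E univ (fun S => Fail (Plant H p u) (insert w S)) := by
  have e1 := E_up (univ : Finset V) (Fail (Plant H p u))
  have e2 : ∑ v ∈ (univ : Finset V), (E univ (Fail (Plant H p u)) -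
        E univ (fun S => Fail (Plant H p u) (insert v S))) =
      slack H p u + ∑ v ∈ Nb H u, (E univ (Fail (Plant H p u)) -
        E univ (fun S => Fail (Plant H p u) (insert v S))) := by
    unfold slack
    rw [Finset.sum_sdiff (Finset.subset_univ _)]
  rw [e1, Finset.sum_sub_distrib, Finset.sum_const, nsmul_eq_mul, Finset.card_univ] at e2
  have e3 := Fail_le_one (Plant H p u) ∅
  have e4 : (0:ℚ) ≤ (Fintype.card V : ℚ) + 1 := by positivity
  nlinarith

theorem plantH_slack (H : Finset (Finset V)) (hH : ∀ h ∈ H, h.card = d + 1)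
    (p : Fin d → (Fin d → V) → Finset V → Prop)
    (hp : ∀ i u S T, S ⊆ T → p i u S → p i u T) :
    ∑ u ∈ Y825.KS.Sh H d, (((Nb H u).card : ℚ) + 1) * E univ (Fail (Plant H p u)) +
      ∑ u ∈ Y825.KS.Sh H d, slack H p u ≤
      ∑ i, ∑ u ∈ Y825.KS.Sh H d, (((Nb H u).card : ℚ) + 1) * E univ (Fail (p i u)) +
        ((Y825.KS.Sh H d).card : ℚ) * ((Fintype.card V : ℚ) + 1) := by
  have harc : ∑ u ∈ Y825.KS.Sh H d, ∑ w ∈ Nb H u,
        E univ (fun S => Fail (Plant H p u) (insert w S)) ≤
      ∑ i, ∑ u ∈ Y825.KS.Sh H d, ∑ w ∈ Nb H u, E univ (fun S => Fail (p i u) (S.erase w)) := by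
    have h1 : ∑ i, ∑ u ∈ Y825.KS.Sh H d, ∑ w ∈ Nb H u, E univ (fun S => Fail (p i u) (S.erase w)) =
        ∑ i, ∑ u ∈ Y825.KS.Sh H d, ∑ w ∈ Nb H u,
          E univ (fun S => Fail (p i (Function.update u i w)) (S.erase (u i))) := by
      refine Finset.sum_congr rfl (fun i _ => ?_)
      exact (Y825.KS.swap H hH i (fun u w => E univ (fun S => Fail (p i u) (S.erase w)))).symm
    rw [h1, Finset.sum_comm]
    refine Finset.sum_le_sum (fun u _ => ?_)
    rw [Finset.sum_comm]
    refine Finset.sum_le_sum (fun w hw => ?_)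
    have h2 := glueF (univ : Finset V) d
      (fun i S' => p i (Function.update u i w) (S'.erase (u i)))
    refine le_trans ?_ h2
    apply E_mono
    intro S _
    apply Fail_mono
    intro hh
    refine ⟨w, Finset.mem_insert_self _ _, ?_, compF_mono _ _ _ _ (Finset.subset_insert _ _) hh⟩
    simpa [Nb] using hw
  have hR : ∀ i, ∀ u ∈ Y825.KS.Sh H d, ∑ w ∈ Nb H u, E univ (fun S => Fail (p i u) (S.erase w)) ≤
      (((Nb H u).card : ℚ) + 1) * E univ (Fail (p i u)) := by
    intro i u _
    have e1 := E_down (univ : Finset V) (Fail (p i u))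
    have e2 : ∑ w ∈ Nb H u, (E univ (fun S => Fail (p i u) (S.erase w)) -
        E univ (Fail (p i u))) ≤
        ∑ w ∈ (univ : Finset V), (E univ (fun S => Fail (p i u) (S.erase w)) -
        E univ (Fail (p i u))) := by
      apply Finset.sum_le_sum_of_subset_of_nonneg (Finset.subset_univ _)
      intro x _ _
      have : E univ (Fail (p i u)) ≤ E univ (fun S => Fail (p i u) (S.erase x)) := by
        apply E_mono
        intro S _
        apply Fail_mono
        exact hp i u _ _ (Finset.erase_subset _ _)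
      linarith
    rw [e1, Finset.sum_sub_distrib, Finset.sum_const, nsmul_eq_mul, Finset.card_univ] at e2
    have e3 := Fail_nonneg (p i u) univ
    have e4 : (0:ℚ) ≤ (Fintype.card V : ℚ) + 1 := by positivity
    nlinarith [mul_nonneg e4 e3]
  have s1 := Finset.sum_le_sum (fun u (_ : u ∈ Y825.KS.Sh H d) => plant_fix H p u)
  have s2 : ∑ i, ∑ u ∈ Y825.KS.Sh H d, ∑ w ∈ Nb H u, E univ (fun S => Fail (p i u) (S.erase w)) ≤
      ∑ i, ∑ u ∈ Y825.KS.Sh H d, (((Nb H u).card : ℚ) + 1) * E univ (Fail (p i u)) :=
    Finset.sum_le_sum (fun i _ => Finset.sum_le_sum (hR i))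
  rw [Finset.sum_add_distrib, Finset.sum_add_distrib, Finset.sum_const, nsmul_eq_mul] at s1
  linarith

theorem E_fail_of_not (H : Finset (Finset V)) {W : Type*} (t : HT W d) (u : Fin d → V)
    (h : ¬ t.Emb H u univ) : E univ (Fail (t.Emb H u)) = (Fintype.card V : ℚ) + 1 := by
  have : Fail (t.Emb H u) = fun _ => 1 := by
    funext S
    have : ¬ t.Emb H u S := fun hh => h (Emb_mono H t u S univ (Finset.subset_univ _) hh)
    simp [Fail, this]
  rw [this, E_one, Finset.card_univ]

/-- The slack terms vanish if the tree does not embed and the degree sum is maximal. -/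
theorem slack_le_zero {W : Type*} (H : Finset (Finset V)) (hH : ∀ h ∈ H, h.card = d + 1)
    (v : W) (C : Fin d → HT W d) (B : HT W d)
    (hno : ∀ u ∈ Y825.KS.Sh H d, ¬ (graft v C B).Emb H u univ)
    (hdeg : ((graft v C B).size : ℚ) * ((Y825.KS.Sh H d).card : ℚ) ≤
      ∑ u ∈ Y825.KS.Sh H d, (((Nb H u).card : ℚ) + 1)) :
    ∑ u ∈ Y825.KS.Sh H d, slack H (fun i => (C i).Emb H) u ≤ 0 := by
  have h1 := plantH_slack H hH (fun i => (C i).Emb H) (fun i u S T => Emb_mono H (C i) u S T)
  have h2 : ∑ u ∈ Y825.KS.Sh H d, (((Nb H u).card : ℚ) + 1) * ((Fintype.card V : ℚ) + 1) ≤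
      ∑ u ∈ Y825.KS.Sh H d, (((Nb H u).card : ℚ) + 1) *
        E univ (Fail (Plant H (fun i => (C i).Emb H) u)) +
      ∑ u ∈ Y825.KS.Sh H d, (((Nb H u).card : ℚ) + 1) * E univ (Fail (B.Emb H u)) := by
    rw [← Finset.sum_add_distrib]
    apply Finset.sum_le_sum
    intro u hu
    rw [← mul_add]
    apply mul_le_mul_of_nonneg_left _ (by positivity)
    rw [← E_fail_of_not H (graft v C B) u (hno u hu)]
    exact glue univ _ _
  have h3 : ((graft v C B).size : ℚ) = (∑ i, ((C i).size : ℚ)) + B.size + 1 := by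
    simp [HT.size]
  have h4 : ∑ i, ∑ u ∈ Y825.KS.Sh H d, (((Nb H u).card : ℚ) + 1) *
        E univ (Fail ((C i).Emb H u)) ≤
      (∑ i, ((C i).size : ℚ)) * (((Y825.KS.Sh H d).card : ℚ) * ((Fintype.card V : ℚ) + 1)) := by
    rw [Finset.sum_mul]
    exact Finset.sum_le_sum (fun i _ => Y825.KS.cost H hH (C i))
  have h5 := Y825.KS.cost H hH B
  rw [← Finset.sum_mul] at h2
  have h6 : (0:ℚ) < (Fintype.card V : ℚ) + 1 := by positivity
  have h7 := mul_le_mul_of_nonneg_right hdeg h6.le
  rw [h3] at h7
  nlinarith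

/-- **No slack**: a vertex outside the neighbourhood of the root is never needed. -/
theorem no_slack {W : Type*} (H : Finset (Finset V)) (hH : ∀ h ∈ H, h.card = d + 1)
    (v : W) (C : Fin d → HT W d) (B : HT W d)
    (hno : ∀ u ∈ Y825.KS.Sh H d, ¬ (graft v C B).Emb H u univ)
    (hdeg : ((graft v C B).size : ℚ) * ((Y825.KS.Sh H d).card : ℚ) ≤
      ∑ u ∈ Y825.KS.Sh H d, (((Nb H u).card : ℚ) + 1))
    (u : Fin d → V) (hu : u ∈ Y825.KS.Sh H d) (x : V) (hx : x ∉ Nb H u) (S : Finset V)
    (hS : Plant H (fun i => (C i).Emb H) u (insert x S)) :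
    Plant H (fun i => (C i).Emb H) u S := by
  have h1 := slack_le_zero H hH v C B hno hdeg
  have h2 : slack H (fun i => (C i).Emb H) u ≤ 0 := by
    have := Finset.single_le_sum (fun u' _ => slack_nonneg H (fun i => (C i).Emb H) u') hu
    exact this.trans h1
  have h3 : E univ (Fail (Plant H (fun i => (C i).Emb H) u)) -
      E univ (fun S => Fail (Plant H (fun i => (C i).Emb H) u) (insert x S)) ≤ 0 := by
    have hx' : x ∈ univ \ Nb H u := Finset.mem_sdiff.2 ⟨Finset.mem_univ _, hx⟩
    have := Finset.single_le_sum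
      (fun x' _ => slack_term_nonneg H (fun i => (C i).Emb H) u x') hx'
    exact this.trans h2
  by_contra hcon
  have f1 : Fail (Plant H (fun i => (C i).Emb H) u) S = 1 := by simp [Fail, hcon]
  have f2 : Fail (Plant H (fun i => (C i).Emb H) u) (insert x S) = 0 := by simp [Fail, hS]
  have h4 : E univ (fun S => Fail (Plant H (fun i => (C i).Emb H) u) (insert x S)) <
      E univ (Fail (Plant H (fun i => (C i).Emb H) u)) := by
    unfold E
    apply Finset.sum_lt_sum
    · intro S' hS'
      have hle := Fail_mono (f := Plant H (fun i => (C i).Emb H) u)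
        (g := Plant H (fun i => (C i).Emb H) u) (S := S') (T := insert x S')
        (Plant_mono H _ u S' _ (Finset.subset_insert _ _))
      gcongr
    · refine ⟨S, Finset.mem_powerset.2 (Finset.subset_univ _), ?_⟩
      beta_reduce
      rw [f1, f2]
      have hc : (0:ℚ) < (((univ : Finset V).card.choose S.card : ℕ) : ℚ) := by
        exact_mod_cast Nat.choose_pos (Finset.card_le_card (Finset.subset_univ S))
      rw [zero_div]
      positivity
  linarith

/-- If `B` with one more edge at its root does not embed, and the degree sum is maximal, then `B`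
embeds at every root. -/
theorem emb_of_extremal {W : Type*} [DecidableEq W] (H : Finset (Finset V))
    (hH : ∀ h ∈ H, h.card = d + 1) (v : W) (B : HT W d)
    (hno : ∀ u ∈ Y825.KS.Sh H d, ¬ (B.addRoot v).Emb H u univ)
    (hdeg : (B.size : ℚ) * ((Y825.KS.Sh H d).card : ℚ) ≤
      ∑ u ∈ Y825.KS.Sh H d, ((Nb H u).card : ℚ))
    (u : Fin d → V) (hu : u ∈ Y825.KS.Sh H d) : B.Emb H u univ := by
  by_contra hcon
  have hn : (0:ℚ) < (Fintype.card V : ℚ) + 1 := by positivity
  -- the leaf
  have hleaf : ∀ u' : Fin d → V, (((Nb H u').card : ℚ) + 1) * E univ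
      (Fail (Plant H (fun i => ((fun j => node (Function.update (root B) j v)) i : HT W d).Emb H)
        u')) ≤ (Fintype.card V : ℚ) + 1 := by
    intro u'
    have h1 := plant_fix H
      (fun i => ((fun j => node (Function.update (root B) j v)) i : HT W d).Emb H) u'
    have h2 := slack_nonneg H
      (fun i => ((fun j => node (Function.update (root B) j v)) i : HT W d).Emb H) u'
    have htriv : ∀ (m : ℕ) (f : Fin m → Finset V → Prop), (∀ i S, f i S) → ∀ S, compF m f S := by
      intro m
      induction m with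
      | zero => intro f _ S; trivial
      | succ m ih =>
        intro f hf S
        exact ⟨∅, Finset.empty_subset _, hf 0 ∅, ih _ (fun i S => hf i.succ S) _⟩
    have h3 : ∑ w ∈ Nb H u', E univ (fun S => Fail (Plant H
        (fun i => ((fun j => node (Function.update (root B) j v)) i : HT W d).Emb H) u')
        (insert w S)) = 0 := by
      apply Finset.sum_eq_zero
      intro w hw
      have : (fun S => Fail (Plant H
        (fun i => ((fun j => node (Function.update (root B) j v)) i : HT W d).Emb H) u')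
        (insert w S)) = fun _ => 0 := by
        funext S
        have h4 : Plant H
          (fun i => ((fun j => node (Function.update (root B) j v)) i : HT W d).Emb H) u'
          (insert w S) := by
          refine ⟨w, Finset.mem_insert_self _ _, by simpa [Nb] using hw, ?_⟩
          exact htriv _ _ (fun i S => trivial) _
        simp [Fail, h4]
      rw [this]
      simp [E]
    linarith
  have hall : ∀ u' ∈ Y825.KS.Sh H d, ((Nb H u').card : ℚ) * ((Fintype.card V : ℚ) + 1) ≤
      (((Nb H u').card : ℚ) + 1) * E univ (Fail (B.Emb H u')) := by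
    intro u' hu'
    have h1 := glue univ (Plant H
      (fun i => ((fun j => node (Function.update (root B) j v)) i : HT W d).Emb H) u')
      (B.Emb H u')
    have h2 : E univ (Fail ((B.addRoot v).Emb H u')) = (Fintype.card V : ℚ) + 1 :=
      E_fail_of_not H _ u' (hno u' hu')
    have h3 : E univ (Fail ((B.addRoot v).Emb H u')) ≤
      E univ (Fail (Plant H
      (fun i => ((fun j => node (Function.update (root B) j v)) i : HT W d).Emb H) u')) +
      E univ (Fail (B.Emb H u')) := h1
    rw [h2] at h3
    have h4 := hleaf u'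
    have h5 : (0:ℚ) ≤ ((Nb H u').card : ℚ) + 1 := by positivity
    have h6 := mul_le_mul_of_nonneg_left h3 h5
    rw [mul_add (((Nb H u').card : ℚ) + 1) (E univ _)] at h6
    linarith
  have hu0 : (((Nb H u).card : ℚ) + 1) * ((Fintype.card V : ℚ) + 1) ≤
      (((Nb H u).card : ℚ) + 1) * E univ (Fail (B.Emb H u)) := by
    rw [E_fail_of_not H B u hcon]
  have hsum : ∑ u' ∈ Y825.KS.Sh H d, ((Nb H u').card : ℚ) * ((Fintype.card V : ℚ) + 1) <
      ∑ u' ∈ Y825.KS.Sh H d, (((Nb H u').card : ℚ) + 1) * E univ (Fail (B.Emb H u')) := by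
    apply Finset.sum_lt_sum hall
    refine ⟨u, hu, ?_⟩
    linarith
  have hc := Y825.KS.cost H hH B
  rw [← Finset.sum_mul] at hsum
  have h7 := mul_le_mul_of_nonneg_right hdeg hn.le
  linarith

end avg

end Pool.Agent.H802.KalaiEq
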