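import Mathlib

/-! Regular closed uniform hypergraphs are unions of complete hypergraphs. -/

set_option autoImplicit false

namespace Pool.Agent.H802.KalaiEq

open Finset

open scoped FinsetFamily

section blocks

variable {V : Type*} [DecidableEq V] [Fintype V] {d : ℕ}

/-- the vertices which complete `f` to an edge -/
def N (H : Finset (Finset V)) (f : Finset V) : Finset V :=
  univ.filter (fun w => insert w f ∈ H)

theorem mem_N (H : Finset (Finset V)) (f : Finset V) (w : V) :
    w ∈ N H f ↔ insert w f ∈ H := by simp [N]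

theorem notMem_of_insert (H : Finset (Finset V)) (hH : ∀ h ∈ H, h.card = d + 1)
    (f : Finset V) (hf : f.card = d) (w : V) (h : insert w f ∈ H) : w ∉ f := by
  intro hw
  have h1 := hH _ h
  rw [Finset.insert_eq_of_mem hw] at h1
  omega

/-- the closure of a facet -/
def cl (H : Finset (Finset V)) (f : Finset V) : Finset V := f ∪ N H f

/-- number of edges containing `f` -/
theorem deg_eq (H : Finset (Finset V)) (hH : ∀ h ∈ H, h.card = d + 1)
    (f : Finset V) (hf : f.card = d) : (H.filter (fun h => f ⊆ h)).card = (N H f).card := by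
  symm
  apply Finset.card_bij (fun w _ => insert w f)
  · intro w hw
    rw [Finset.mem_filter]
    exact ⟨(mem_N H f w).1 hw, Finset.subset_insert _ _⟩
  · intro a ha b hb hab
    have ha' := notMem_of_insert H hH f hf a ((mem_N H f a).1 ha)
    have h1 : a ∈ insert b f := by rw [← hab]; exact Finset.mem_insert_self _ _
    rcases Finset.mem_insert.1 h1 with h | h
    · exact h
    · exact absurd h ha'
  · intro h hh
    rw [Finset.mem_filter] at hh
    obtain ⟨h1, h2⟩ := hh
    obtain ⟨w, hw⟩ : (h \ f).Nonempty := by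
      rw [← Finset.card_pos, Finset.card_sdiff_of_subset h2, hH h h1, hf]
      omega
    rw [Finset.mem_sdiff] at hw
    have h4 : insert w f = h := by
      apply Finset.eq_of_subset_of_card_le
      · exact Finset.insert_subset hw.1 h2
      · rw [hH h h1, Finset.card_insert_of_notMem hw.2, hf]
    refine ⟨w, ?_, h4⟩
    rw [mem_N, h4]
    exact h1

theorem double_count (H : Finset (Finset V)) (hH : ∀ h ∈ H, h.card = d + 1) (D : ℕ)
    (hreg : ∀ s ∈ ∂ H, (H.filter (fun h => s ⊆ h)).card = D) :
    (d + 1) * H.card = D * (∂ H).card := by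
  have h1 : ∑ s ∈ ∂ H, (H.filter (fun h => s ⊆ h)).card =
      ∑ h ∈ H, ((∂ H).filter (fun s => s ⊆ h)).card := by
    simp only [Finset.card_filter]
    rw [Finset.sum_comm]
  have h2 : ∀ h ∈ H, ((∂ H).filter (fun s => s ⊆ h)).card = d + 1 := by
    intro h hh
    have h3 : (∂ H).filter (fun s => s ⊆ h) = powersetCard d h := by
      ext s
      rw [Finset.mem_filter, Finset.mem_powersetCard]
      constructor
      · rintro ⟨hs1, hs2⟩
        refine ⟨hs2, ?_⟩
        obtain ⟨a, ha, has⟩ := Finset.mem_shadow_iff_insert_mem.1 hs1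
        have := hH _ has
        rw [Finset.card_insert_of_notMem ha] at this
        omega
      · rintro ⟨hs1, hs2⟩
        refine ⟨?_, hs1⟩
        rw [Finset.mem_shadow_iff_exists_mem_card_add_one]
        exact ⟨h, hh, hs1, by rw [hH h hh, hs2]⟩
    rw [h3, Finset.card_powersetCard, hH h hh]
    simp
  rw [Finset.sum_congr rfl hreg, Finset.sum_congr rfl h2, Finset.sum_const, Finset.sum_const,
    smul_eq_mul, smul_eq_mul] at h1
  linarith

variable (H : Finset (Finset V)) (hH : ∀ h ∈ H, h.card = d + 1) (D : ℕ)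
  (hreg : ∀ f : Finset V, f.card = d → (∃ w, insert w f ∈ H) → (N H f).card = D)
  (hcl : ∀ (f : Finset V) (w y x : V), f.card = d → insert w f ∈ H → y ∈ f → x ≠ y →
    insert x (insert w (f.erase y)) ∈ H → insert x f ∈ H)

include hH hreg hcl

theorem cl_step (f : Finset V) (hf : f.card = d) (w : V) (hw : insert w f ∈ H) (y : V)
    (hy : y ∈ f) : cl H (insert w (f.erase y)) = cl H f := by
  have hwf := notMem_of_insert H hH f hf w hw
  have hwy : w ≠ y := fun h => hwf (h ▸ hy)
  have hwe : w ∉ f.erase y := fun h => hwf (Finset.mem_of_mem_erase h)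
  have hf' : (insert w (f.erase y)).card = d := by
    rw [Finset.card_insert_of_notMem hwe, Finset.card_erase_of_mem hy]
    have : 0 < f.card := Finset.card_pos.2 ⟨y, hy⟩
    omega
  have hins : insert y (insert w (f.erase y)) = insert w f := by
    rw [Finset.insert_comm, Finset.insert_erase hy]
  have hyN : y ∈ N H (insert w (f.erase y)) := by rw [mem_N, hins]; exact hw
  have hwN : w ∈ N H f := by rw [mem_N]; exact hw
  have hsub : (N H (insert w (f.erase y))).erase y ⊆ (N H f).erase w := by
    intro x hx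
    rw [Finset.mem_erase, mem_N] at hx
    rw [Finset.mem_erase, mem_N]
    refine ⟨?_, hcl f w y x hf hw hy hx.1 hx.2⟩
    rintro rfl
    exact notMem_of_insert H hH _ hf' x hx.2 (Finset.mem_insert_self _ _)
  have heq : (N H (insert w (f.erase y))).erase y = (N H f).erase w := by
    apply Finset.eq_of_subset_of_card_le hsub
    rw [Finset.card_erase_of_mem hwN, Finset.card_erase_of_mem hyN, hreg f hf ⟨w, hw⟩,
      hreg _ hf' ⟨y, by rw [hins]; exact hw⟩]
  unfold cl
  rw [← Finset.insert_erase hyN, heq]
  ext z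
  have h1 : z ∈ f ↔ z = y ∨ z ∈ f.erase y := by
    rw [← Finset.mem_insert, Finset.insert_erase hy]
  have h2 : z ∈ N H f ↔ z = w ∨ z ∈ (N H f).erase w := by
    rw [← Finset.mem_insert, Finset.insert_erase hwN]
  rw [Finset.mem_union, Finset.mem_insert, Finset.mem_insert, Finset.mem_union, h1, h2]
  tauto

theorem cl_edge (e : Finset V) (he : e ∈ H) (a b : V) (ha : a ∈ e) (hb : b ∈ e) :
    cl H (e.erase a) = cl H (e.erase b) := by
  by_cases hab : a = b
  · rw [hab]
  · have h1 : (e.erase a).card = d := by rw [Finset.card_erase_of_mem ha, hH e he]; rfl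
    have h2 : insert a (e.erase a) ∈ H := by rw [Finset.insert_erase ha]; exact he
    have h3 := cl_step H hH D hreg hcl (e.erase a) h1 a h2 b
      (Finset.mem_erase.2 ⟨fun h => hab h.symm, hb⟩)
    rw [← h3]
    congr 1
    ext z
    rw [Finset.mem_insert, Finset.mem_erase, Finset.mem_erase, Finset.mem_erase]
    constructor
    · rintro (rfl | ⟨h4, h5, h6⟩)
      · exact ⟨hab, ha⟩
      · exact ⟨h4, h6⟩
    · rintro ⟨h4, h5⟩
      by_cases hza : z = a
      · exact Or.inl hza
      · exact Or.inr ⟨h4, hza, h5⟩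

theorem cl_card (f : Finset V) (hf : f.card = d) (hw : ∃ w, insert w f ∈ H) :
    (cl H f).card = d + D := by
  unfold cl
  rw [Finset.card_union_of_disjoint, hf, hreg f hf hw]
  rw [Finset.disjoint_right]
  intro w hw
  exact notMem_of_insert H hH f hf w ((mem_N H f w).1 hw)

theorem exchange (k : ℕ) : ∀ e ∈ H, ∀ a ∈ e, ∀ g : Finset V, g ⊆ cl H (e.erase a) →
    g.card = d + 1 → (g \ e).card = k → g ∈ H ∧ ∀ b ∈ g, cl H (g.erase b) = cl H (e.erase a) := by
  induction k with
  | zero =>
    intro e he a ha g hg hgc hk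
    rw [Finset.card_eq_zero, Finset.sdiff_eq_empty_iff_subset] at hk
    have hge : g = e := Finset.eq_of_subset_of_card_le hk (by rw [hgc, hH e he])
    subst hge
    exact ⟨he, fun b hb => cl_edge H hH D hreg hcl g he b a hb ha⟩
  | succ k ih =>
    intro e he a ha g hg hgc hk
    obtain ⟨x, hx⟩ : (g \ e).Nonempty := by rw [← Finset.card_pos]; omega
    obtain ⟨y, hy⟩ : (e \ g).Nonempty := by
      rw [← Finset.card_pos]
      have h1 := Finset.card_sdiff_add_card_inter g e
      have h2 := Finset.card_sdiff_add_card_inter e g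
      rw [Finset.inter_comm] at h2
      rw [hH e he] at h2
      omega
    rw [Finset.mem_sdiff] at hx hy
    have h1 : x ∈ cl H (e.erase y) := by
      rw [← cl_edge H hH D hreg hcl e he a y ha hy.1]
      exact hg hx.1
    have hxe : x ∉ e.erase y := fun h => hx.2 (Finset.mem_of_mem_erase h)
    have h2 : insert x (e.erase y) ∈ H := by
      unfold cl at h1
      rcases Finset.mem_union.1 h1 with h | h
      · exact absurd h hxe
      · exact (mem_N H _ x).1 h
    have h3 : (insert x (e.erase y)).erase x = e.erase y := Finset.erase_insert hxe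
    have h4 : cl H ((insert x (e.erase y)).erase x) = cl H (e.erase a) := by
      rw [h3]
      exact cl_edge H hH D hreg hcl e he y a hy.1 ha
    have h5 : g \ insert x (e.erase y) = (g \ e).erase x := by
      ext z
      rw [Finset.mem_sdiff, Finset.mem_insert, Finset.mem_erase, Finset.mem_erase,
        Finset.mem_sdiff]
      constructor
      · rintro ⟨h6, h7⟩
        push Not at h7
        refine ⟨h7.1, h6, ?_⟩
        exact h7.2 (fun h => hy.2 (h ▸ h6))
      · rintro ⟨h6, h7, h8⟩
        refine ⟨h7, ?_⟩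
        rintro (h | ⟨_, h⟩)
        · exact h6 h
        · exact h8 h
    obtain ⟨r1, r2⟩ := ih (insert x (e.erase y)) h2 x (Finset.mem_insert_self _ _) g
      (by rw [h4]; exact hg) hgc (by
        rw [h5, Finset.card_erase_of_mem (Finset.mem_sdiff.2 hx)]; omega)
    exact ⟨r1, fun b hb => by rw [r2 b hb, h4]⟩

theorem edge_sub_cl (e : Finset V) (he : e ∈ H) (a : V) (ha : a ∈ e) :
    e ⊆ cl H (e.erase a) := by
  intro z hz
  unfold cl
  by_cases hza : z = a
  · subst hza
    apply Finset.mem_union_right
    rw [mem_N, Finset.insert_erase hz]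
    exact he
  · exact Finset.mem_union_left _ (Finset.mem_erase.2 ⟨hza, hz⟩)

theorem blocks_of : ∃ Q : Finset (Finset V), (∀ A ∈ Q, A.card = d + D) ∧
    (∀ A ∈ Q, ∀ B ∈ Q, A ≠ B → (A ∩ B).card < d) ∧ H = Q.biUnion (powersetCard (d + 1)) := by
  refine ⟨H.biUnion (fun e => e.image (fun a => cl H (e.erase a))), ?_, ?_, ?_⟩
  · intro A hA
    obtain ⟨e, he, hA⟩ := Finset.mem_biUnion.1 hA
    obtain ⟨a, ha, rfl⟩ := Finset.mem_image.1 hA
    apply cl_card H hH D hreg hcl
    · rw [Finset.card_erase_of_mem ha, hH e he]; rfl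
    · exact ⟨a, by rw [Finset.insert_erase ha]; exact he⟩
  · have key : ∀ A ∈ H.biUnion (fun e => e.image (fun a => cl H (e.erase a))), ∀ f : Finset V,
        f ⊆ A → f.card = d → cl H f = A := by
      intro A hA f hf hfd
      obtain ⟨e, he, hA⟩ := Finset.mem_biUnion.1 hA
      obtain ⟨a, ha, rfl⟩ := Finset.mem_image.1 hA
      have h1 := Finset.card_le_card (edge_sub_cl H hH D hreg hcl e he a ha)
      rw [hH e he] at h1
      obtain ⟨x, hx⟩ : (cl H (e.erase a) \ f).Nonempty := by
        rw [← Finset.card_pos, Finset.card_sdiff_of_subset hf]; omega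
      rw [Finset.mem_sdiff] at hx
      obtain ⟨r1, r2⟩ := exchange H hH D hreg hcl _ e he a ha (insert x f)
        (Finset.insert_subset hx.1 hf) (by rw [Finset.card_insert_of_notMem hx.2, hfd]) rfl
      have := r2 x (Finset.mem_insert_self _ _)
      rw [Finset.erase_insert hx.2] at this
      exact this
    intro A hA B hB hAB
    by_contra hcon
    push Not at hcon
    obtain ⟨f, hf1, hf2⟩ := Finset.exists_subset_card_eq hcon
    apply hAB
    rw [← key A hA f (hf1.trans Finset.inter_subset_left) hf2,
      ← key B hB f (hf1.trans Finset.inter_subset_right) hf2]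
  · ext g
    rw [Finset.mem_biUnion]
    constructor
    · intro hg
      have h1 := hH g hg
      obtain ⟨a, ha⟩ : g.Nonempty := by rw [← Finset.card_pos]; omega
      refine ⟨cl H (g.erase a), ?_, ?_⟩
      · rw [Finset.mem_biUnion]
        exact ⟨g, hg, Finset.mem_image.2 ⟨a, ha, rfl⟩⟩
      · rw [Finset.mem_powersetCard]
        exact ⟨edge_sub_cl H hH D hreg hcl g hg a ha, h1⟩
    · rintro ⟨A, hA, hg⟩
      rw [Finset.mem_powersetCard] at hg
      obtain ⟨e, he, hA⟩ := Finset.mem_biUnion.1 hA
      obtain ⟨a, ha, rfl⟩ := Finset.mem_image.1 hA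
      exact (exchange H hH D hreg hcl _ e he a ha g hg.1 hg.2 rfl).1

end blocks

end Pool.Agent.H802.KalaiEq
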