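import Pool.Agent.H802.KalaiEq.Main

/-! Converse directions: unions of complete hypergraphs contain no tight tree and attain the
bound; Steiner systems. -/

set_option autoImplicit false

namespace Pool.Agent.H802.KalaiEq

open Finset ES903 H223R3.Kalai H223R3.Kalai.HT

open scoped FinsetFamily

section conv

variable {V : Type*} [DecidableEq V] [Fintype V] {d : ℕ} {W : Type*} [DecidableEq W]

omit [Fintype V] in
/-- uniformity of a union of complete hypergraphs -/
theorem union_uniform (Q : Finset (Finset V)) (r : ℕ) (h : Finset V)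
    (hh : h ∈ Q.biUnion (powersetCard r)) : h.card = r := by
  obtain ⟨A, _, hA⟩ := Finset.mem_biUnion.1 hh
  exact (Finset.mem_powersetCard.1 hA).2

omit [Fintype V] in
/-- degrees in a union of complete hypergraphs -/
theorem union_degree (Q : Finset (Finset V)) (D : ℕ) (hQ : ∀ A ∈ Q, A.card = d + D)
    (hQ2 : ∀ A ∈ Q, ∀ B ∈ Q, A ≠ B → (A ∩ B).card < d) (s : Finset V)
    (hs : s ∈ ∂ (Q.biUnion (powersetCard (d + 1)))) :
    ((Q.biUnion (powersetCard (d + 1))).filter (fun h => s ⊆ h)).card = D := by
  rw [Finset.mem_shadow_iff_exists_mem_card_add_one] at hs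
  obtain ⟨g, hg, hsg, hgc⟩ := hs
  obtain ⟨A, hA, hgA⟩ := Finset.mem_biUnion.1 hg
  rw [Finset.mem_powersetCard] at hgA
  have hsc : s.card = d := by omega
  have hsA : s ⊆ A := hsg.trans hgA.1
  have huniq : ∀ B ∈ Q, s ⊆ B → B = A := by
    intro B hB hsB
    by_contra hne
    have h1 := hQ2 B hB A hA hne
    have h2 := Finset.card_le_card (Finset.subset_inter hsB hsA)
    omega
  have h1 : ((Q.biUnion (powersetCard (d + 1))).filter (fun h => s ⊆ h)) =
      (A \ s).image (fun x => insert x s) := by
    ext h
    rw [Finset.mem_filter, Finset.mem_image]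
    constructor
    · rintro ⟨h1, h2⟩
      obtain ⟨B, hB, hhB⟩ := Finset.mem_biUnion.1 h1
      rw [Finset.mem_powersetCard] at hhB
      have hBA := huniq B hB (h2.trans hhB.1)
      subst hBA
      obtain ⟨x, hx⟩ : (h \ s).Nonempty := by
        rw [← Finset.card_pos, Finset.card_sdiff_of_subset h2]; omega
      rw [Finset.mem_sdiff] at hx
      refine ⟨x, Finset.mem_sdiff.2 ⟨hhB.1 hx.1, hx.2⟩, ?_⟩
      apply Finset.eq_of_subset_of_card_le (Finset.insert_subset hx.1 h2)
      rw [Finset.card_insert_of_notMem hx.2]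
      omega
    · rintro ⟨x, hx, rfl⟩
      rw [Finset.mem_sdiff] at hx
      refine ⟨Finset.mem_biUnion.2 ⟨A, hA, ?_⟩, Finset.subset_insert _ _⟩
      rw [Finset.mem_powersetCard]
      exact ⟨Finset.insert_subset hx.1 hsA, by rw [Finset.card_insert_of_notMem hx.2, hsc]⟩
  rw [h1, Finset.card_image_of_injOn, Finset.card_sdiff_of_subset hsA, hQ A hA, hsc]
  · omega
  · intro x hx y hy hxy
    have hx' := (Finset.mem_sdiff.1 (by exact_mod_cast hx : x ∈ A \ s)).2
    have h3 : x ∈ insert y s := by
      have : x ∈ insert x s := Finset.mem_insert_self _ _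
      beta_reduce at hxy
      rw [hxy] at this
      exact this
    rcases Finset.mem_insert.1 h3 with h | h
    · exact h
    · exact absurd h hx'

omit [Fintype V] in
/-- a union of complete hypergraphs on too few points contains no copy -/
theorem union_free (Q : Finset (Finset V)) (e : ℕ → Finset W) (t : ℕ) (ht : 1 ≤ t)
    (h0 : (e 0).card = d + 1) (hstep : Step d e t)
    (hQ : ∀ A ∈ Q, A.card = d + (t - 1))
    (hQ2 : ∀ A ∈ Q, ∀ B ∈ Q, A ≠ B → (A ∩ B).card < d) :
    ¬ ∃ f : W → V, Set.InjOn f (((Finset.range t).biUnion e : Finset W) : Set W) ∧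
      ∀ i, i < t → (e i).image f ∈ Q.biUnion (powersetCard (d + 1)) := by
  rintro ⟨f, f1, f2⟩
  obtain ⟨A, hA, hA0⟩ := Finset.mem_biUnion.1 (f2 0 (by omega))
  rw [Finset.mem_powersetCard] at hA0
  have hall : ∀ i, i < t → (e i).image f ⊆ A := by
    intro i
    induction i using Nat.strong_induction_on with
    | _ i ih =>
      intro hi
      rcases Nat.eq_zero_or_pos i with rfl | hpos
      · exact hA0.1
      · obtain ⟨j, hj, S, hSj, hSc, v, hv, hev⟩ := hstep i hpos hi
        obtain ⟨B, hB, hBi⟩ := Finset.mem_biUnion.1 (f2 i hi)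
        rw [Finset.mem_powersetCard] at hBi
        have h1 : S.image f ⊆ A := (Finset.image_subset_image hSj).trans (ih j hj (by omega))
        have h2 : S.image f ⊆ B := by
          refine subset_trans (Finset.image_subset_image ?_) hBi.1
          rw [hev]; exact Finset.subset_insert _ _
        have h3 : (S.image f).card = d := by
          rw [Finset.card_image_of_injOn, hSc]
          intro x hx y hy hxy
          apply f1 _ _ hxy
          · rw [Finset.mem_coe, Finset.mem_biUnion]
            exact ⟨j, Finset.mem_range.2 (by omega), hSj (by exact_mod_cast hx)⟩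
          · rw [Finset.mem_coe, Finset.mem_biUnion]
            exact ⟨j, Finset.mem_range.2 (by omega), hSj (by exact_mod_cast hy)⟩
        have h4 : A = B := by
          by_contra hne
          have h5 := hQ2 A hA B hB hne
          have h6 := Finset.card_le_card (Finset.subset_inter h1 h2)
          omega
        rw [h4]
        exact hBi.1
  have hX : ((Finset.range t).biUnion e).card = d + t := by
    obtain ⟨y, hy⟩ : (e 0).Nonempty := by rw [← Finset.card_pos]; omega
    obtain ⟨a, ha1, ha2⟩ := exists_inj_of_card (d := d) ((e 0).erase y) (by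
      rw [Finset.card_erase_of_mem hy]; omega)
    obtain ⟨T, t1, t2, t3, t4, t5⟩ := exists_HT_root e t h0 hstep (t - 1) (by omega) 0 (by omega) a
      ha1 (by rw [ha2]; exact Finset.erase_subset _ _)
    have ht' : t - 1 + 1 = t := by omega
    rw [ht'] at t3 t4 t5
    rw [← t5, Finset.card_union_of_disjoint (nv_root T t1), card_nv T t1, t3, t2,
      Finset.card_image_of_injective _ ha1, Finset.card_univ, Fintype.card_fin]
    omega
  have h7 : (((Finset.range t).biUnion e).image f).card = d + t := by
    rw [Finset.card_image_of_injOn f1, hX]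
  have h8 : ((Finset.range t).biUnion e).image f ⊆ A := by
    intro z hz
    obtain ⟨x, hx, rfl⟩ := Finset.mem_image.1 hz
    obtain ⟨i, hi, hxi⟩ := Finset.mem_biUnion.1 hx
    exact hall i (Finset.mem_range.1 hi) (Finset.mem_image_of_mem _ hxi)
  have h9 := Finset.card_le_card h8
  rw [h7, hQ A hA] at h9
  omega

/-- number of edges through a common facet -/
theorem star_free (H : Finset (Finset V)) (e : ℕ → Finset W) (t : ℕ) (ht : 1 ≤ t)
    (h0 : (e 0).card = d + 1) (hstep : Step d e t) (hH : ∀ h ∈ H, h.card = d + 1)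
    (hst : ∃ S : Finset W, S.card = d ∧ ∀ i, i < t → S ⊆ e i)
    (hreg : ∀ s ∈ ∂ H, (H.filter (fun h => s ⊆ h)).card = t - 1) :
    ¬ ∃ f : W → V, Set.InjOn f (((Finset.range t).biUnion e : Finset W) : Set W) ∧
      ∀ i, i < t → (e i).image f ∈ H := by
  rintro ⟨f, f1, f2⟩
  obtain ⟨S, hSc, hS⟩ := hst
  have hX : ∀ i, i < t → e i ⊆ (Finset.range t).biUnion e := fun i hi =>
    Finset.subset_biUnion_of_mem e (Finset.mem_range.2 hi)
  have hSX : S ⊆ (Finset.range t).biUnion e := (hS 0 (by omega)).trans (hX 0 (by omega))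
  have hSf : (S.image f).card = d := by
    rw [Finset.card_image_of_injOn, hSc]
    intro x hx y hy hxy
    exact f1 (by exact_mod_cast hSX (by exact_mod_cast hx))
      (by exact_mod_cast hSX (by exact_mod_cast hy)) hxy
  have hsh : S.image f ∈ ∂ H := by
    rw [Finset.mem_shadow_iff_exists_mem_card_add_one]
    exact ⟨_, f2 0 (by omega), Finset.image_subset_image (hS 0 (by omega)), by
      rw [hH _ (f2 0 (by omega)), hSf]⟩
  have hdist : ∀ i, i < t → ∀ j, j < i → e i ≠ e j := by
    intro i hi j hj h
    obtain ⟨j', hj', S', hS'j, hS'c, v, hv, hev⟩ := hstep i (by omega) hi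
    apply hv
    rw [Finset.mem_biUnion]
    refine ⟨j, Finset.mem_range.2 hj, ?_⟩
    rw [← h, hev]
    exact Finset.mem_insert_self _ _
  have hinj : Set.InjOn (fun i => (e i).image f) ((Finset.range t : Finset ℕ) : Set ℕ) := by
    intro i hi j hj hij
    have hi' : i < t := Finset.mem_range.1 (by exact_mod_cast hi)
    have hj' : j < t := Finset.mem_range.1 (by exact_mod_cast hj)
    have hee : e i = e j := by
      have hsub : ∀ a b, a < t → b < t → (e a).image f = (e b).image f → e a ⊆ e b := by
        intro a b ha hb hab x hx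
        have h1 : f x ∈ (e b).image f := by rw [← hab]; exact Finset.mem_image_of_mem _ hx
        obtain ⟨y, hy, hyx⟩ := Finset.mem_image.1 h1
        have := f1 (by exact_mod_cast hX b hb hy) (by exact_mod_cast hX a ha hx) hyx
        rw [← this]; exact hy
      exact Finset.Subset.antisymm (hsub i j hi' hj' hij) (hsub j i hj' hi' hij.symm)
    rcases lt_trichotomy i j with h | h | h
    · exact absurd hee.symm (hdist j hj' i h)
    · exact h
    · exact absurd hee (hdist i hi' j h)
  have h2 : (Finset.range t).image (fun i => (e i).image f) ⊆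
      H.filter (fun h => S.image f ⊆ h) := by
    intro h hh
    obtain ⟨i, hi, rfl⟩ := Finset.mem_image.1 hh
    have hi' := Finset.mem_range.1 hi
    rw [Finset.mem_filter]
    exact ⟨f2 i hi', Finset.image_subset_image (hS i hi')⟩
  have h3 := Finset.card_le_card h2
  rw [Finset.card_image_of_injOn hinj, Finset.card_range, hreg _ hsh] at h3
  omega

/-- shadows of unions covering all `d`-sets -/
theorem shadow_all (H : Finset (Finset V)) (hH : ∀ h ∈ H, h.card = d + 1) :
    ∂ H ⊆ powersetCard d univ := by
  intro s hs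
  rw [Finset.mem_powersetCard]
  refine ⟨Finset.subset_univ _, ?_⟩
  obtain ⟨a, ha, has⟩ := Finset.mem_shadow_iff_insert_mem.1 hs
  have := hH _ has
  rw [Finset.card_insert_of_notMem ha] at this
  omega

end conv

end Pool.Agent.H802.KalaiEq
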