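import Pool.Agent.H802.KalaiEq.Avg

/-! Regularity of the extremal hypergraphs and closure of the neighbourhoods. -/

set_option autoImplicit false

namespace Pool.Agent.H802.KalaiEq

open Finset ES903 H223R3.Kalai H223R3.Kalai.HT

section greedy

theorem compF_of {V : Type*} [DecidableEq V] : ∀ (m : ℕ) (f : Fin m → Finset V → Prop)
    (S : Finset V) (P : Fin m → Finset V), (∀ i, P i ⊆ S) →
    (∀ i j, i ≠ j → Disjoint (P i) (P j)) → (∀ i, f i (P i)) → compF m f S := by
  intro m
  induction m with
  | zero => intro f S P _ _ _; trivial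
  | succ m ih =>
    intro f S P h1 h2 h3
    refine ⟨P 0, h1 0, h3 0, ?_⟩
    apply ih (fun i => f i.succ) (S \ P 0) (fun i => P i.succ)
    · intro i
      rw [Finset.subset_sdiff]
      exact ⟨h1 _, h2 _ _ (Fin.succ_ne_zero i)⟩
    · intro i j hij
      exact h2 _ _ (fun h => hij (Fin.succ_injective _ h))
    · intro i
      exact h3 _

theorem seq {V : Type*} [DecidableEq V] {m : ℕ} (f : Fin m → Finset V → Prop) (s : Fin m → ℕ)
    (M : ℕ) (Z0 : Finset V)
    (h : ∀ i, ∀ Z, Z0 ⊆ Z → Z.card + s i ≤ M → ∃ P, P.card = s i ∧ Disjoint P Z ∧ f i P) :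
    ∀ (I : Finset (Fin m)) (Z : Finset V), Z0 ⊆ Z → Z.card + ∑ i ∈ I, s i ≤ M →
      ∃ P : Fin m → Finset V, (∀ i ∈ I, (P i).card = s i ∧ Disjoint (P i) Z ∧ f i (P i)) ∧
        ∀ i ∈ I, ∀ j ∈ I, i ≠ j → Disjoint (P i) (P j) := by
  intro I
  induction I using Finset.induction_on with
  | empty =>
    intro Z _ _
    exact ⟨fun _ => ∅, by simp, by simp⟩
  | insert i I hi ih =>
    intro Z hZ hc
    rw [Finset.sum_insert hi] at hc
    obtain ⟨Q, q1, q2, q3⟩ := h i Z hZ (by omega)
    obtain ⟨P, p1, p2⟩ := ih (Z ∪ Q) (hZ.trans Finset.subset_union_left) (by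
      rw [Finset.card_union_of_disjoint q2.symm, q1]; omega)
    refine ⟨Function.update P i Q, ?_, ?_⟩
    · intro j hj
      by_cases hji : j = i
      · subst hji
        rw [Function.update_self]
        exact ⟨q1, q2, q3⟩
      · rw [Function.update_of_ne hji]
        obtain ⟨a1, a2, a3⟩ := p1 j (Finset.mem_of_mem_insert_of_ne hj hji)
        exact ⟨a1, (Finset.disjoint_union_right.1 a2).1, a3⟩
    · intro j hj k hk hjk
      by_cases hji : j = i
      · subst hji
        have hkj : k ≠ j := fun h => hjk h.symm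
        rw [Function.update_self, Function.update_of_ne hkj]
        obtain ⟨a1, a2, a3⟩ := p1 k (Finset.mem_of_mem_insert_of_ne hk hkj)
        exact (Finset.disjoint_union_right.1 a2).2.symm
      · by_cases hki : k = i
        · subst hki
          rw [Function.update_self, Function.update_of_ne hji]
          obtain ⟨a1, a2, a3⟩ := p1 j (Finset.mem_of_mem_insert_of_ne hj hji)
          exact (Finset.disjoint_union_right.1 a2).2
        · rw [Function.update_of_ne hji, Function.update_of_ne hki]
          exact p2 j (Finset.mem_of_mem_insert_of_ne hj hji) k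
            (Finset.mem_of_mem_insert_of_ne hk hki) hjk

variable {V : Type*} [DecidableEq V] [Fintype V] {d : ℕ}

theorem mem_Nb (H : Finset (Finset V)) (u : Fin d → V) (w : V) :
    w ∈ Nb H u ↔ insert w (univ.image u) ∈ H := by
  simp [Nb]

theorem update_mem_Sh (H : Finset (Finset V)) (hH : ∀ h ∈ H, h.card = d + 1) (u : Fin d → V)
    (hu : u ∈ Y825.KS.Sh H d) (w : V) (hw : w ∈ Nb H u) (i : Fin d) :
    Function.update u i w ∈ Y825.KS.Sh H d := by
  rw [Y825.KS.mem_Sh] at hu ⊢
  rw [mem_Nb] at hw
  refine ⟨update_inj u hu.1 i w (not_mem_image H hH u w hw), u i, ?_⟩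
  rw [mem_Nb, insert_update]
  exact hw

/-- the tree `t` can be embedded greedily at every root -/
def Gr {W : Type*} (H : Finset (Finset V)) (D : ℕ) (t : HT W d) : Prop :=
  ∀ u ∈ Y825.KS.Sh H d, ∀ Z : Finset V, univ.image u ⊆ Z → Z.card + t.size ≤ D + d →
    ∃ S, S.card = t.size ∧ Disjoint S Z ∧ t.Emb H u S

theorem branch {W : Type*} (H : Finset (Finset V)) (hH : ∀ h ∈ H, h.card = d + 1) (D : ℕ)
    (C : Fin d → HT W d) (hC : ∀ i, Gr H D (C i)) (u : Fin d → V) (hu : u ∈ Y825.KS.Sh H d)
    (w : V) (hw : w ∈ Nb H u) (I : Finset (Fin d)) (Z : Finset V)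
    (hZ : insert w (univ.image u) ⊆ Z) (hc : Z.card + ∑ i ∈ I, (C i).size ≤ D + d) :
    ∃ P : Fin d → Finset V, (∀ i ∈ I, (P i).card = (C i).size ∧ Disjoint (P i) Z ∧
      (C i).Emb H (Function.update u i w) ((P i).erase (u i))) ∧
      ∀ i ∈ I, ∀ j ∈ I, i ≠ j → Disjoint (P i) (P j) := by
  apply seq (fun i P => (C i).Emb H (Function.update u i w) (P.erase (u i)))
    (fun i => (C i).size) (D + d) (insert w (univ.image u)) _ I Z hZ hc
  intro i Z' hZ' hc'
  obtain ⟨P, p1, p2, p3⟩ := hC i (Function.update u i w) (update_mem_Sh H hH u hu w hw i) Z'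
    ((image_update_sub u i w).trans hZ') hc'
  refine ⟨P, p1, p2, ?_⟩
  have : u i ∉ P := fun h => Finset.disjoint_left.1 p2 h
    (hZ' (Finset.mem_insert_of_mem (Finset.mem_image_of_mem _ (Finset.mem_univ i))))
  rw [Finset.erase_eq_of_notMem this]
  exact p3

theorem greedy_first {W : Type*} (H : Finset (Finset V)) (hH : ∀ h ∈ H, h.card = d + 1) (D : ℕ)
    (v : W) (C : Fin d → HT W d) (B : HT W d) (hC : ∀ i, Gr H D (C i)) (hB : Gr H D B)
    (u : Fin d → V) (hu : u ∈ Y825.KS.Sh H d)
    (w : V) (hw : w ∈ Nb H u) (Z : Finset V)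
    (hZ : insert w (univ.image u) ⊆ Z) (hc : Z.card + (∑ i, (C i).size + B.size) ≤ D + d) :
    ∃ S, S.card = ∑ i, (C i).size + B.size ∧ Disjoint S Z ∧
      (graft v C B).Emb H u (insert w S) := by
  obtain ⟨P, p1, p2⟩ := branch H hH D C hC u hu w hw univ Z hZ (by omega)
  have hS1c : (univ.biUnion P).card = ∑ i, (C i).size := by
    rw [Finset.card_biUnion (fun i hi j hj hij => p2 i hi j hj hij)]
    exact Finset.sum_congr rfl (fun i hi => (p1 i hi).1)
  have hS1Z : Disjoint (univ.biUnion P) Z := by
    rw [Finset.disjoint_biUnion_left]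
    intro i hi
    exact (p1 i hi).2.1
  obtain ⟨S2, s1, s2, s3⟩ := hB u hu (Z ∪ univ.biUnion P)
    (((Finset.subset_insert _ _).trans hZ).trans Finset.subset_union_left) (by
      rw [Finset.card_union_of_disjoint hS1Z.symm, hS1c]; omega)
  rw [Finset.disjoint_union_right] at s2
  refine ⟨univ.biUnion P ∪ S2, ?_, ?_, ?_⟩
  · rw [Finset.card_union_of_disjoint s2.2.symm, hS1c, s1]
  · rw [Finset.disjoint_union_left]
    exact ⟨hS1Z, s2.1⟩
  · refine ⟨insert w (univ.biUnion P), Finset.insert_subset_insert _ Finset.subset_union_left,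
      ⟨w, Finset.mem_insert_self _ _, (mem_Nb H u w).1 hw, ?_⟩, ?_⟩
    · apply compF_of _ _ _ P
      · intro i
        exact (Finset.subset_biUnion_of_mem P (Finset.mem_univ i)).trans (Finset.subset_insert _ _)
      · intro i j hij
        exact p2 i (Finset.mem_univ i) j (Finset.mem_univ j) hij
      · intro i
        exact (p1 i (Finset.mem_univ i)).2.2
    · apply Emb_mono H B u S2 _ _ s3
      intro z hz
      rw [Finset.mem_sdiff]
      refine ⟨Finset.mem_insert_of_mem (Finset.mem_union_right _ hz), ?_⟩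
      intro h
      rcases Finset.mem_insert.1 h with h | h
      · apply Finset.disjoint_left.1 s2.1 hz
        apply hZ
        rw [h]
        exact Finset.mem_insert_self _ _
      · exact Finset.disjoint_left.1 s2.2 hz h

/-- trees of size at most the minimum degree embed greedily -/
theorem greedy {W : Type*} (H : Finset (Finset V)) (hH : ∀ h ∈ H, h.card = d + 1) (D : ℕ)
    (hD : ∀ u ∈ Y825.KS.Sh H d, D ≤ (Nb H u).card) (t : HT W d) : Gr H D t := by
  induction t with
  | node a =>
    intro u _ Z _ _
    exact ⟨∅, rfl, Finset.disjoint_empty_left _, trivial⟩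
  | graft v C B ihC ihB =>
    intro u hu Z hZ hc
    have hsz : (graft v C B).size = ∑ i, (C i).size + B.size + 1 := rfl
    have hui := (Y825.KS.mem_Sh H u).1 hu
    have hcu : (univ.image u).card = d := by
      rw [Finset.card_image_of_injective _ hui.1, Finset.card_univ, Fintype.card_fin]
    obtain ⟨w, hw, hwZ⟩ : ∃ w, w ∈ Nb H u ∧ w ∉ Z := by
      by_contra hcon
      push Not at hcon
      have h1 : Nb H u ⊆ Z \ univ.image u := by
        intro w hw
        rw [Finset.mem_sdiff]
        refine ⟨hcon w hw, ?_⟩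
        intro h
        obtain ⟨j, _, hj⟩ := Finset.mem_image.1 h
        exact not_mem_image H hH u w ((mem_Nb H u w).1 hw) j hj
      have h2 := Finset.card_le_card h1
      rw [Finset.card_sdiff_of_subset hZ, hcu] at h2
      have h3 := hD u hu
      have h4 := Finset.card_le_card hZ
      omega
    obtain ⟨S, s1, s2, s3⟩ := greedy_first H hH D v C B ihC ihB u hu w hw (insert w Z)
      (Finset.insert_subset_insert _ hZ) (by
        rw [Finset.card_insert_of_notMem hwZ]; omega)
    rw [Finset.disjoint_insert_right] at s2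
    refine ⟨insert w S, ?_, ?_, s3⟩
    · rw [Finset.card_insert_of_notMem s2.1, s1, hsz]
    · rw [Finset.disjoint_insert_left]
      exact ⟨hwZ, s2.2⟩

/-- there is a copy of `T` in `H` -/
def Copy {W : Type*} [DecidableEq W] (H : Finset (Finset V)) (T : HT W d) : Prop :=
  ∃ f : W → V, Set.InjOn f ((T.nv ∪ univ.image T.root : Finset W) : Set W) ∧
    ∀ e ∈ T.edges, e.image f ∈ H

theorem not_emb {W : Type*} [DecidableEq W] [Nonempty V]
    (H : Finset (Finset V)) (hH : ∀ h ∈ H, h.card = d + 1)
    (T : HT W d) (hT : T.Good) (hri : Function.Injective T.root)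
    (hno : ¬ Copy H T) (u : Fin d → V) (hu : u ∈ Y825.KS.Sh H d) : ¬ T.Emb H u univ := by
  intro hE
  have hu := ((Y825.KS.mem_Sh H u).1 hu).1
  obtain ⟨f, f1, f2, f3, f4⟩ := HT.extract H hH T hT hri u univ hE
  apply hno
  refine ⟨f, ?_, f4⟩
  intro x hx y hy hxy
  rw [Finset.mem_coe, Finset.mem_union] at hx hy
  rcases hx with hx | hx
  · rcases hy with hy | hy
    · exact f2 (by exact_mod_cast hx) (by exact_mod_cast hy) hxy
    · obtain ⟨j, _, hj⟩ := Finset.mem_image.1 hy
      rw [← hj, f1] at hxy
      exact absurd (Finset.mem_image.2 ⟨j, Finset.mem_univ _, hxy.symm⟩) (f3 x hx).2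
  · obtain ⟨i, _, hi⟩ := Finset.mem_image.1 hx
    rcases hy with hy | hy
    · rw [← hi, f1] at hxy
      exact absurd (Finset.mem_image.2 ⟨i, Finset.mem_univ _, hxy⟩) (f3 y hy).2
    · obtain ⟨j, _, hj⟩ := Finset.mem_image.1 hy
      rw [← hi, ← hj, f1, f1] at hxy
      rw [← hi, ← hj, hu hxy]

/-- if `B` embeds at `u` but `B` with one more edge at its root has no copy, then `u` has at most
`B.size` neighbours -/
theorem nb_le {W : Type*} [DecidableEq W] [Nonempty V]
    (H : Finset (Finset V)) (hH : ∀ h ∈ H, h.card = d + 1)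
    (v : W) (B : HT W d) (hB : B.Good) (hri : Function.Injective B.root)
    (hv1 : v ∉ univ.image B.root) (hv2 : v ∉ B.nv)
    (hno : ¬ Copy H (B.addRoot v)) (u : Fin d → V) (hu : u ∈ Y825.KS.Sh H d)
    (hE : B.Emb H u univ) : (Nb H u).card ≤ B.size := by
  have hu := ((Y825.KS.mem_Sh H u).1 hu).1
  obtain ⟨f, f1, f2, f3, f4⟩ := HT.extract H hH B hB hri u univ hE
  have hsub : Nb H u ⊆ B.nv.image f := by
    intro w hw
    by_contra hcon
    have hwu : ∀ j, u j ≠ w := not_mem_image H hH u w ((mem_Nb H u w).1 hw)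
    have hwn : ∀ x ∈ B.nv, f x ≠ w := fun x hx h => hcon (Finset.mem_image.2 ⟨x, hx, h⟩)
    apply hno
    obtain ⟨c1, c2, c3, c4, c5⟩ := addRoot_ext v B hB hv1 hv2
    have hfx : ∀ x, x ≠ v → Function.update f v w x = f x := fun x hx =>
      Function.update_of_ne hx _ _
    refine ⟨Function.update f v w, ?_, ?_⟩
    · rw [c5, c2]
      have key : ∀ x ∈ B.nv ∪ univ.image B.root, x ≠ v ∧ f x ≠ w := by
        intro x hx
        rcases Finset.mem_union.1 hx with hx | hx
        · exact ⟨fun h => hv2 (h ▸ hx), hwn x hx⟩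
        · refine ⟨fun h => hv1 (h ▸ hx), ?_⟩
          obtain ⟨j, _, hj⟩ := Finset.mem_image.1 hx
          rw [← hj, f1]; exact hwu j
      have hinj : Set.InjOn f ((B.nv ∪ univ.image B.root : Finset W) : Set W) := by
        intro x hx y hy hxy
        rw [Finset.mem_coe, Finset.mem_union] at hx hy
        rcases hx with hx | hx
        · rcases hy with hy | hy
          · exact f2 (by exact_mod_cast hx) (by exact_mod_cast hy) hxy
          · obtain ⟨j, _, hj⟩ := Finset.mem_image.1 hy
            rw [← hj, f1] at hxy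
            exact absurd (Finset.mem_image.2 ⟨j, Finset.mem_univ _, hxy.symm⟩) (f3 x hx).2
        · obtain ⟨i, _, hi⟩ := Finset.mem_image.1 hx
          rcases hy with hy | hy
          · rw [← hi, f1] at hxy
            exact absurd (Finset.mem_image.2 ⟨i, Finset.mem_univ _, hxy⟩) (f3 y hy).2
          · obtain ⟨j, _, hj⟩ := Finset.mem_image.1 hy
            rw [← hi, ← hj, f1, f1] at hxy
            rw [← hi, ← hj, hu hxy]
      intro x hx y hy hxy
      have hcases : ∀ z ∈ ((insert v B.nv ∪ univ.image B.root : Finset W) : Set W),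
          z = v ∨ z ∈ B.nv ∪ univ.image B.root := by
        intro z hz
        rw [Finset.mem_coe, Finset.insert_union, Finset.mem_insert] at hz
        exact hz
      rcases hcases x hx with rfl | hx'
      · rcases hcases y hy with rfl | hy'
        · rfl
        · rw [Function.update_self, hfx y (key y hy').1] at hxy
          exact absurd hxy.symm (key y hy').2
      · rcases hcases y hy with rfl | hy'
        · rw [Function.update_self, hfx x (key x hx').1] at hxy
          exact absurd hxy (key x hx').2
        · rw [hfx x (key x hx').1, hfx y (key y hy').1] at hxy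
          exact hinj (by exact_mod_cast hx') (by exact_mod_cast hy') hxy
    · intro e he
      rw [c4] at he
      rcases Finset.mem_insert.1 he with h | h
      · rw [h, Finset.image_insert, Function.update_self, Finset.image_image]
        have : Function.update f v w ∘ B.root = u := by
          funext i
          have hne : B.root i ≠ v := fun h' => hv1 (h' ▸ Finset.mem_image_of_mem _ (Finset.mem_univ i))
          simp only [Function.comp]
          rw [hfx _ hne, f1]
        rw [this]
        exact (mem_Nb H u w).1 hw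
      · have h2 : e.image (Function.update f v w) = e.image f := by
          apply Finset.image_congr
          intro x hx
          apply hfx
          intro hxv
          have hx' := edges_sub B hB e h (by exact_mod_cast hx)
          rw [hxv] at hx'
          rcases Finset.mem_union.1 hx' with h3 | h3
          · exact hv2 h3
          · exact hv1 h3
        rw [h2]
        exact f4 e h
  calc (Nb H u).card ≤ (B.nv.image f).card := Finset.card_le_card hsub
    _ ≤ B.nv.card := Finset.card_image_le
    _ = B.size := card_nv B hB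

omit [Fintype V] in
theorem plant_card {W : Type*} [DecidableEq W] [Nonempty V]
    (H : Finset (Finset V)) (hH : ∀ h ∈ H, h.card = d + 1)
    (v : W) (C : Fin d → HT W d) (B : HT W d) (hT : (graft v C B).Good)
    (hri : Function.Injective B.root) (u : Fin d → V) (S : Finset V)
    (hS : Plant H (fun i => (C i).Emb H) u S) : ∑ i, (C i).size + 1 ≤ S.card := by
  obtain ⟨hC, hB, hr, hv, hvB, hvC, hCC, hCB, hCr⟩ := hT
  have hT0 : (graft v C (node B.root)).Good := by
    refine ⟨hC, trivial, hr, hv, by simp [nv], hvC, hCC, ?_, hCr⟩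
    intro i; simp [nv]
  obtain ⟨f, f1, f2, f3, f4⟩ := HT.extract H hH (graft v C (node B.root)) hT0 hri u S
    ⟨S, Finset.Subset.refl _, hS, trivial⟩
  have h1 : ((graft v C (node B.root)).nv.image f).card = (graft v C (node B.root)).nv.card :=
    Finset.card_image_of_injOn f2
  have h2 : (graft v C (node B.root)).nv.image f ⊆ S := by
    intro z hz
    obtain ⟨x, hx, rfl⟩ := Finset.mem_image.1 hz
    exact (f3 x hx).1
  have h3 := Finset.card_le_card h2
  rw [h1, card_nv _ hT0] at h3
  have h4 : (graft v C (node B.root)).size = ∑ i, (C i).size + 0 + 1 := rfl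
  omega

/-- **Closure of the neighbourhoods.** -/
theorem closure_ord {W : Type*} [DecidableEq W] [Nonempty V]
    (H : Finset (Finset V)) (hH : ∀ h ∈ H, h.card = d + 1)
    (v : W) (C : Fin d → HT W d) (B : HT W d) (hT : (graft v C B).Good)
    (hri : Function.Injective B.root) (hno : ¬ Copy H (graft v C B))
    (D : ℕ) (hD : ∀ u ∈ Y825.KS.Sh H d, (Nb H u).card = D) (hsz : (graft v C B).size = D + 1)
    (hB1 : 1 ≤ B.size) (i0 : Fin d) (hC1 : 1 ≤ (C i0).size)
    (u : Fin d → V) (hu : u ∈ Y825.KS.Sh H d) (w : V) (hw : w ∈ Nb H u)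
    (x : V) (hx : x ∈ Nb H (Function.update u i0 w)) (hxu : x ≠ u i0) : x ∈ Nb H u := by
  by_contra hcon
  have hsz' : (graft v C B).size = ∑ i, (C i).size + B.size + 1 := rfl
  have hGr : ∀ t : HT W d, Gr H D t := greedy H hH D (fun u hu => (hD u hu).ge)
  have hu' := update_mem_Sh H hH u hu w hw i0
  have hui := ((Y825.KS.mem_Sh H u).1 hu).1
  have hcu : (univ.image u).card = d := by
    rw [Finset.card_image_of_injective _ hui, Finset.card_univ, Fintype.card_fin]
  have hwu : w ∉ univ.image u := by
    intro h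
    obtain ⟨j, _, hj⟩ := Finset.mem_image.1 h
    exact not_mem_image H hH u w ((mem_Nb H u w).1 hw) j hj
  have hxu' : x ∉ insert w (univ.image u) := by
    have h1 := not_mem_image H hH (Function.update u i0 w) x ((mem_Nb H _ x).1 hx)
    intro h
    rcases Finset.mem_insert.1 h with h | h
    · apply h1 i0
      rw [Function.update_self, h]
    · obtain ⟨j, _, hj⟩ := Finset.mem_image.1 h
      by_cases hji : j = i0
      · subst hji
        exact hxu hj.symm
      · apply h1 j
        rw [Function.update_of_ne hji, hj]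
  have hZ1c : (insert x (insert w (univ.image u))).card = d + 2 := by
    rw [Finset.card_insert_of_notMem hxu', Finset.card_insert_of_notMem hwu, hcu]
  have hsum : ∑ i, (C i).size = (C i0).size + ∑ i ∈ univ.erase i0, (C i).size :=
    (Finset.add_sum_erase univ (fun i => (C i).size) (Finset.mem_univ i0)).symm
  -- the branch at `i0`, with `x` as its first vertex
  obtain ⟨S0, hS0c, hS0Z, hS0E⟩ : ∃ S0 : Finset V, S0.card + 1 = (C i0).size ∧
      Disjoint S0 (insert x (insert w (univ.image u))) ∧
      (C i0).Emb H (Function.update u i0 w) (insert x S0) := by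
    have hCi : ∀ c : HT W d, 1 ≤ c.size → c.size + ∑ i ∈ univ.erase i0, (C i).size + 1 ≤ D →
        ∃ S0 : Finset V, S0.card + 1 = c.size ∧
      Disjoint S0 (insert x (insert w (univ.image u))) ∧
      c.Emb H (Function.update u i0 w) (insert x S0) := by
      intro c hc1 hc2
      cases c with
      | node a => simp [size] at hc1
      | graft v' C' B' =>
        have hsz2 : (graft v' C' B').size = ∑ i, (C' i).size + B'.size + 1 := rfl
        obtain ⟨S, s1, s2, s3⟩ := greedy_first H hH D v' C' B' (fun i => hGr _) (hGr _)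
          (Function.update u i0 w) hu' x hx (insert x (insert w (univ.image u)))
          (Finset.insert_subset_insert _ (image_update_sub u i0 w)) (by
            rw [hZ1c]; omega)
        exact ⟨S, by omega, s2, s3⟩
    apply hCi (C i0) hC1
    omega
  have hxS0 : x ∉ S0 := fun h => Finset.disjoint_left.1 hS0Z h (Finset.mem_insert_self _ _)
  -- the other branches
  obtain ⟨P, p1, p2⟩ := branch H hH D C (fun i => hGr _) u hu w hw (univ.erase i0)
    (insert x (insert w (univ.image u)) ∪ S0)
    ((Finset.subset_insert _ _).trans Finset.subset_union_left) (by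
      rw [Finset.card_union_of_disjoint hS0Z.symm, hZ1c]; omega)
  obtain ⟨Q, hQ⟩ : ∃ Q : Fin d → Finset V, Q = Function.update P i0 (insert x S0) := ⟨_, rfl⟩
  have hQ0 : Q i0 = insert x S0 := by rw [hQ, Function.update_self]
  have hQn : ∀ i, i ≠ i0 → Q i = P i := fun i hi => by rw [hQ, Function.update_of_ne hi]
  have hPi : ∀ i, i ≠ i0 → Disjoint (P i) (insert x S0) := by
    intro i hi
    have h1 := (p1 i (Finset.mem_erase.2 ⟨hi, Finset.mem_univ _⟩)).2.1
    rw [Finset.disjoint_union_right, Finset.disjoint_insert_right] at h1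
    rw [Finset.disjoint_insert_right]
    exact ⟨h1.1.1, h1.2⟩
  have hQd : ∀ i j, i ≠ j → Disjoint (Q i) (Q j) := by
    intro i j hij
    by_cases hi : i = i0
    · have hj : j ≠ i0 := fun h => hij (hi.trans h.symm)
      rw [hi, hQ0, hQn j hj]
      exact (hPi j hj).symm
    · by_cases hj : j = i0
      · rw [hj, hQ0, hQn i hi]
        exact hPi i hi
      · rw [hQn i hi, hQn j hj]
        exact p2 i (Finset.mem_erase.2 ⟨hi, Finset.mem_univ _⟩) j
          (Finset.mem_erase.2 ⟨hj, Finset.mem_univ _⟩) hij
  have hQc : ∀ i, (Q i).card = (C i).size := by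
    intro i
    by_cases hi : i = i0
    · rw [hi, hQ0, Finset.card_insert_of_notMem hxS0, hS0c]
    · rw [hQn i hi]
      exact (p1 i (Finset.mem_erase.2 ⟨hi, Finset.mem_univ _⟩)).1
  have hQE : ∀ i, (C i).Emb H (Function.update u i w) ((Q i).erase (u i)) := by
    intro i
    by_cases hi : i = i0
    · subst hi
      rw [hQ0, Finset.erase_eq_of_notMem]
      · exact hS0E
      · intro h
        rcases Finset.mem_insert.1 h with h | h
        · exact hxu h.symm
        · exact Finset.disjoint_left.1 hS0Z h (Finset.mem_insert_of_mem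
            (Finset.mem_insert_of_mem (Finset.mem_image_of_mem _ (Finset.mem_univ i))))
    · rw [hQn i hi]
      exact (p1 i (Finset.mem_erase.2 ⟨hi, Finset.mem_univ _⟩)).2.2
  have hxF : x ∈ insert w (univ.biUnion Q) := by
    apply Finset.mem_insert_of_mem
    rw [Finset.mem_biUnion]
    exact ⟨i0, Finset.mem_univ _, by rw [hQ0]; exact Finset.mem_insert_self _ _⟩
  have hPl : Plant H (fun i => (C i).Emb H) u (insert w (univ.biUnion Q)) := by
    refine ⟨w, Finset.mem_insert_self _ _, (mem_Nb H u w).1 hw, ?_⟩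
    apply compF_of _ _ _ Q
    · intro i
      exact (Finset.subset_biUnion_of_mem Q (Finset.mem_univ i)).trans (Finset.subset_insert _ _)
    · exact hQd
    · exact hQE
  rw [← Finset.insert_erase hxF] at hPl
  have hdeg : ((graft v C B).size : ℚ) * ((Y825.KS.Sh H d).card : ℚ) ≤
      ∑ u ∈ Y825.KS.Sh H d, (((Nb H u).card : ℚ) + 1) := by
    rw [Finset.sum_congr rfl (fun u hu => by rw [hD u hu]), Finset.sum_const, nsmul_eq_mul, hsz]
    push_cast
    linarith
  have hPl2 := no_slack H hH v C B
    (fun u hu => not_emb H hH (graft v C B) hT hri hno u hu) hdeg u hu x hcon _ hPl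
  have h1 := plant_card H hH v C B hT hri u _ hPl2
  rw [Finset.card_erase_of_mem hxF] at h1
  have h2 : (insert w (univ.biUnion Q)).card ≤ ∑ i, (C i).size + 1 := by
    refine (Finset.card_insert_le _ _).trans ?_
    rw [Finset.card_biUnion (fun i _ j _ hij => hQd i j hij),
      Finset.sum_congr rfl (fun i _ => hQc i)]
  omega

end greedy

end Pool.Agent.H802.KalaiEq
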