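import Pool.Agent.H802.KalaiEq.Greedy
import Pool.Agent.H802.KalaiEq.Blocks

/-! The extremal hypergraphs for Kalai's bound. -/

set_option autoImplicit false

namespace Pool.Agent.H802.KalaiEq

open Finset ES903 H223R3.Kalai H223R3.Kalai.HT

open scoped FinsetFamily

section main

variable {V : Type*} [DecidableEq V] [Fintype V] {d : ℕ} {W : Type*} [DecidableEq W]

theorem Nb_eq_N (H : Finset (Finset V)) (u : Fin d → V) : Nb H u = N H (univ.image u) := rfl

theorem image_update (u : Fin d → V) (hu : Function.Injective u) (i : Fin d) (w : V) :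
    univ.image (Function.update u i w) = insert w ((univ.image u).erase (u i)) := by
  ext z
  simp only [Finset.mem_image, Finset.mem_univ, true_and, Finset.mem_insert, Finset.mem_erase]
  constructor
  · rintro ⟨j, hj⟩
    by_cases hji : j = i
    · subst hji
      rw [Function.update_self] at hj
      exact Or.inl hj.symm
    · rw [Function.update_of_ne hji] at hj
      refine Or.inr ⟨?_, j, hj⟩
      rw [← hj]
      exact fun h => hji (hu h)
  · rintro (h | ⟨h1, j, hj⟩)
    · exact ⟨i, by rw [Function.update_self]; exact h.symm⟩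
    · have hji : j ≠ i := by
        rintro rfl
        exact h1 hj.symm
      exact ⟨j, by rw [Function.update_of_ne hji]; exact hj⟩

/-- an ordering of `f` with `y` at position `i` -/
theorem exists_order (f : Finset V) (hf : f.card = d) (y : V) (hy : y ∈ f) (i : Fin d) :
    ∃ u : Fin d → V, Function.Injective u ∧ univ.image u = f ∧ u i = y := by
  obtain ⟨a, ha1, ha2⟩ := exists_inj_of_card f hf
  have : y ∈ univ.image a := by rw [ha2]; exact hy
  obtain ⟨j, _, hj⟩ := Finset.mem_image.1 this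
  refine ⟨a ∘ Equiv.swap i j, ha1.comp (Equiv.injective _), ?_, ?_⟩
  · rw [← ha2]
    ext z
    simp only [Finset.mem_image, Finset.mem_univ, true_and, Function.comp]
    constructor
    · rintro ⟨k, hk⟩; exact ⟨_, hk⟩
    · rintro ⟨k, hk⟩; exact ⟨Equiv.swap i j k, by rw [Equiv.swap_apply_self]; exact hk⟩
  · simp [hj]

/-- the degree sum over the ordered shadow -/
theorem deg_sum (H : Finset (Finset V)) (hH : ∀ h ∈ H, h.card = d + 1) (D : ℕ)
    (heq : D * (∂ H).card ≤ (d + 1) * H.card) :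
    D * (Y825.KS.Sh H d).card ≤ ∑ u ∈ Y825.KS.Sh H d, (Nb H u).card := by
  have h2 := sum_nb_ge H hH
  rw [← Y825.KS.sum_Sh H] at h2
  have h3 := Y825.KS.card_Sh_le H hH
  calc D * (Y825.KS.Sh H d).card ≤ D * (d.factorial * (∂ H).card) := Nat.mul_le_mul_left _ h3
    _ = (D * (∂ H).card) * d.factorial := by ring
    _ ≤ ((d + 1) * H.card) * d.factorial := Nat.mul_le_mul_right _ heq
    _ = H.card * (d + 1).factorial := by rw [Nat.factorial_succ]; ring
    _ ≤ _ := h2

/-- the standing hypothesis: `e 0, ..., e (t-1)` is a tight tree -/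
def Step (d : ℕ) (e : ℕ → Finset W) (t : ℕ) : Prop :=
  ∀ i, 0 < i → i < t → ∃ j, j < i ∧ ∃ S : Finset W, S ⊆ e j ∧ S.card = d ∧
      ∃ v : W, v ∉ (Finset.range i).biUnion e ∧ e i = insert v S

/-- no copy -/
def Free (H : Finset (Finset V)) (e : ℕ → Finset W) (t : ℕ) : Prop :=
  ¬ ∃ f : W → V, Set.InjOn f (((Finset.range t).biUnion e : Finset W) : Set W) ∧
      ∀ i, i < t → (e i).image f ∈ H

theorem not_copy (H : Finset (Finset V)) (e : ℕ → Finset W) (t : ℕ) (hno : Free H e t)
    (T : HT W d) (h1 : T.edges = (Finset.range t).image e)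
    (h2 : T.nv ∪ univ.image T.root = (Finset.range t).biUnion e) : ¬ Copy H T := by
  rintro ⟨f, f1, f2⟩
  apply hno
  rw [h2] at f1
  refine ⟨f, f1, ?_⟩
  intro i hi
  apply f2
  rw [h1]
  exact Finset.mem_image_of_mem _ (Finset.mem_range.2 hi)

/-- **Regularity**: in an extremal hypergraph all nonzero codegrees are `t - 1`. -/
theorem regular [Nonempty V] (H : Finset (Finset V)) (hH : ∀ h ∈ H, h.card = d + 1)
    (e : ℕ → Finset W) (t : ℕ) (h0 : (e 0).card = d + 1) (hstep : Step d e (t + 2))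
    (hno : Free H e (t + 2)) (heq : (t + 1) * (∂ H).card ≤ (d + 1) * H.card) :
    ∀ u ∈ Y825.KS.Sh H d, (Nb H u).card = t + 1 := by
  obtain ⟨j, hj, S, hSj, hSc, v, hv, hev⟩ := hstep (t + 1) (by omega) (by omega)
  obtain ⟨a, ha1, ha2⟩ := exists_inj_of_card S hSc
  obtain ⟨B, b1, b2, b3, b4, b5⟩ := exists_HT_root e (t + 2) h0 hstep t (by omega) j (by omega) a
    ha1 (by rw [ha2]; exact hSj)
  have hv' := hv
  rw [← b5, Finset.mem_union] at hv'
  push Not at hv'
  obtain ⟨c1, c2, c3, c4, c5⟩ := addRoot_ext v B b1 hv'.2 hv'.1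
  have hSX : S ⊆ (Finset.range (t + 1)).biUnion e :=
    hSj.trans (Finset.subset_biUnion_of_mem e (Finset.mem_range.2 hj))
  have hnc : ¬ Copy H (B.addRoot v) := by
    apply not_copy H e (t + 2) hno
    · rw [c4, b4, b2, ha2, ← hev, Finset.range_add_one (n := t + 1), Finset.image_insert]
    · rw [c5, c2, Finset.insert_union, b5, Finset.range_add_one (n := t + 1),
        Finset.biUnion_insert, hev, Finset.insert_union, Finset.union_eq_right.2 hSX]
  have hri : Function.Injective B.root := by rw [b2]; exact ha1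
  have hri2 : Function.Injective (B.addRoot v).root := by rw [c2]; exact hri
  have hds := deg_sum H hH (t + 1) heq
  have hdq : (B.size : ℚ) * ((Y825.KS.Sh H d).card : ℚ) ≤
      ∑ u ∈ Y825.KS.Sh H d, ((Nb H u).card : ℚ) := by
    rw [b3]
    exact_mod_cast hds
  have hle : ∀ u ∈ Y825.KS.Sh H d, (Nb H u).card ≤ t + 1 := by
    intro u hu
    have h1 := emb_of_extremal H hH v B
      (fun u' hu' => not_emb H hH _ c1 hri2 hnc u' hu') hdq u hu
    have h2 := nb_le H hH v B b1 hri hv'.2 hv'.1 hnc u hu h1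
    rw [b3] at h2
    exact h2
  intro u hu
  apply le_antisymm (hle u hu)
  by_contra hcon
  push Not at hcon
  have h3 : ∑ u ∈ Y825.KS.Sh H d, (Nb H u).card < ∑ u ∈ Y825.KS.Sh H d, (t + 1) :=
    Finset.sum_lt_sum hle ⟨u, hu, hcon⟩
  rw [Finset.sum_const, smul_eq_mul] at h3
  linarith

/-- two ridges in one edge of a tight tree which is not a star -/
theorem ridges (e : ℕ → Finset W) (t : ℕ) (h0 : (e 0).card = d + 1) (hstep : Step d e t)
    (ht : 1 ≤ t) (hns : ¬ ∃ S : Finset W, S.card = d ∧ ∀ i, i < t → S ⊆ e i) :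
    ∃ j, j < t ∧ ∃ k, k < t ∧ ∃ k2, k2 < t ∧ ∃ S S' : Finset W, S.card = d ∧ S'.card = d ∧
      S ⊆ e j ∧ S' ⊆ e j ∧ S ≠ S' ∧ S ⊆ e k2 ∧ e k2 ≠ e j ∧ S' ⊆ e k ∧ e k ≠ e j := by
  have ht2 : 2 ≤ t := by
    by_contra hcon
    obtain rfl : t = 1 := by omega
    apply hns
    obtain ⟨S, hS1, hS2⟩ := Finset.exists_subset_card_eq (s := e 0) (n := d) (by omega)
    refine ⟨S, hS2, fun i hi => ?_⟩
    obtain rfl : i = 0 := by omega
    exact hS1
  obtain ⟨j1, hj1, S1, hS1j, hS1c, v1, hv1, he1⟩ := hstep 1 (by omega) (by omega)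
  obtain rfl : j1 = 0 := by omega
  have hex : ∃ k, k < t ∧ ¬ S1 ⊆ e k := by
    by_contra hcon
    push Not at hcon
    exact hns ⟨S1, hS1c, hcon⟩
  obtain ⟨hk1, hk2⟩ := Nat.find_spec hex
  have hmin : ∀ m, m < Nat.find hex → S1 ⊆ e m := by
    intro m hm
    by_contra hcon
    exact Nat.find_min hex hm ⟨by omega, hcon⟩
  have hk0 : Nat.find hex ≠ 0 := by
    intro h
    rw [h] at hk2
    exact hk2 hS1j
  obtain ⟨j, hj, S', hS'j, hS'c, v, hv, hev⟩ := hstep (Nat.find hex) (by omega) hk1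
  have hjt : j < t := by omega
  have hne : S1 ≠ S' := by
    intro h
    apply hk2
    rw [hev, h]
    exact Finset.subset_insert _ _
  have hvj : v ∉ e j := fun h => hv (Finset.mem_biUnion.2 ⟨j, Finset.mem_range.2 hj, h⟩)
  have hkj : e (Nat.find hex) ≠ e j := by
    intro h
    apply hvj
    rw [← h, hev]
    exact Finset.mem_insert_self _ _
  have hS'k : S' ⊆ e (Nat.find hex) := by rw [hev]; exact Finset.subset_insert _ _
  by_cases hj0 : j = 0
  · refine ⟨j, hjt, Nat.find hex, hk1, 1, by omega, S1, S', hS1c, hS'c, hmin j hj, hS'j, hne, ?_,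
      ?_, hS'k, hkj⟩
    · rw [he1]; exact Finset.subset_insert _ _
    · intro h
      have h1 : v1 ∈ e 0 := by
        rw [← hj0, ← h, he1]; exact Finset.mem_insert_self _ _
      exact hv1 (Finset.mem_biUnion.2 ⟨0, Finset.mem_range.2 (by omega), h1⟩)
  · refine ⟨j, hjt, Nat.find hex, hk1, 0, by omega, S1, S', hS1c, hS'c, hmin j hj, hS'j, hne,
      hS1j, ?_, hS'k, hkj⟩
    intro h
    obtain ⟨j', hj', S2, hS2, hS2c, v2, hv2, he2⟩ := hstep j (by omega) hjt
    have h1 : v2 ∈ e 0 := by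
      rw [h, he2]; exact Finset.mem_insert_self _ _
    exact hv2 (Finset.mem_biUnion.2 ⟨0, Finset.mem_range.2 (by omega), h1⟩)

/-- **The extremal hypergraphs** for trees that are not stars. -/
theorem extremal [Nonempty V] (H : Finset (Finset V)) (hH : ∀ h ∈ H, h.card = d + 1)
    (e : ℕ → Finset W) (t : ℕ) (ht : 1 ≤ t) (h0 : (e 0).card = d + 1) (hstep : Step d e t)
    (hno : Free H e t) (heq : (t - 1) * (∂ H).card ≤ (d + 1) * H.card)
    (hns : ¬ ∃ S : Finset W, S.card = d ∧ ∀ i, i < t → S ⊆ e i) :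
    ∃ Q : Finset (Finset V), (∀ A ∈ Q, A.card = d + (t - 1)) ∧
    (∀ A ∈ Q, ∀ B ∈ Q, A ≠ B → (A ∩ B).card < d) ∧ H = Q.biUnion (powersetCard (d + 1)) := by
  obtain ⟨j, hj, k, hk, k2, hk2, S, S', hSc, hS'c, hSj, hS'j, hSS', hSk2, hne2, hS'k, hnek⟩ :=
    ridges e t h0 hstep ht hns
  have ht2 : 2 ≤ t := by
    by_contra hcon
    obtain rfl : t = 1 := by omega
    obtain rfl : j = 0 := by omega
    obtain rfl : k = 0 := by omega
    exact hnek rfl
  have hreg : ∀ u ∈ Y825.KS.Sh H d, (Nb H u).card = t - 1 := by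
    obtain ⟨s, rfl⟩ : ∃ s, t = s + 2 := ⟨t - 2, by omega⟩
    exact regular H hH e s h0 hstep hno heq
  obtain ⟨a, ha1, ha2⟩ := exists_inj_of_card S hSc
  obtain ⟨T, t1, t2, t3, t4, t5⟩ := exists_HT_root e t h0 hstep (t - 1) (by omega) j (by omega) a
    ha1 (by rw [ha2]; exact hSj)
  have ht' : t - 1 + 1 = t := by omega
  rw [ht'] at t3 t4 t5
  have hriT : Function.Injective T.root := by rw [t2]; exact ha1
  obtain ⟨v, C, B, g1, g2, g3, g4, g5, g6⟩ := top T t1 hriT (e j)
    (by rw [t4]; exact Finset.mem_image_of_mem _ (Finset.mem_range.2 hj))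
    (by rw [t2, ha2]; exact hSj)
  have hriB : Function.Injective B.root := by rw [g2]; exact hriT
  have hrS : univ.image B.root = S := by rw [g2, t2, ha2]
  have hej : e j = insert v S := by rw [g3, t2, ha2]
  have hvS : v ∉ S := by
    have := g1.2.2.2.1
    rw [hrS] at this
    exact this
  have hsplit : ∀ m, m < t → e m ≠ e j → (∃ i, e m ∈ (C i).edges) ∨ e m ∈ B.edges := by
    intro m hm hmj
    have h1 : e m ∈ (graft v C B).edges := by
      rw [g5, t4]; exact Finset.mem_image_of_mem _ (Finset.mem_range.2 hm)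
    have h2 : e m ∈ insert (insert v (univ.image (root B)))
        ((univ.biUnion fun i => edges (C i)) ∪ edges B) := h1
    rw [hrS, ← hej] at h2
    rcases Finset.mem_insert.1 h2 with h | h
    · exact absurd h hmj
    · rcases Finset.mem_union.1 h with h | h
      · obtain ⟨i, _, hi⟩ := Finset.mem_biUnion.1 h
        exact Or.inl ⟨i, hi⟩
      · exact Or.inr h
  have hBsz : 1 ≤ B.size := by
    by_contra hcon
    have hB0 : B.edges = ∅ := edges_eq_empty B (by omega)
    rcases hsplit k2 hk2 hne2 with ⟨i, hi⟩ | h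
    · apply side_not_root v C B g1 hriB i (e k2) hi
      apply hSk2
      rw [← hrS]
      exact Finset.mem_image_of_mem _ (Finset.mem_univ i)
    · rw [hB0] at h
      simp at h
  have hvS' : v ∈ S' := by
    by_contra hcon
    apply hSS'
    symm
    apply Finset.eq_of_subset_of_card_le
    · intro z hz
      have := hS'j hz
      rw [hej, Finset.mem_insert] at this
      rcases this with rfl | h
      · exact absurd hz hcon
      · exact h
    · rw [hSc, hS'c]
  obtain ⟨i0, hi0⟩ : ∃ i, 1 ≤ (C i).size := by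
    rcases hsplit k hk hnek with ⟨i, hi⟩ | h
    · refine ⟨i, ?_⟩
      by_contra hcon
      have hB0 : (C i).edges = ∅ := edges_eq_empty (C i) (by omega)
      rw [hB0] at hi
      simp at hi
    · exfalso
      have h1 := edges_sub B g1.2.1 (e k) h (hS'k hvS')
      rcases Finset.mem_union.1 h1 with h2 | h2
      · exact g1.2.2.2.2.1 h2
      · rw [hrS] at h2
        exact hvS h2
  have hnc : ¬ Copy H (graft v C B) := by
    apply not_copy H e t hno
    · rw [g5, t4]
    · have h1 : (graft v C B).root = T.root := g2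
      rw [g6, h1, t5]
  have hclo : ∀ u ∈ Y825.KS.Sh H d, ∀ w ∈ Nb H u, ∀ x ∈ Nb H (Function.update u i0 w),
      x ≠ u i0 → x ∈ Nb H u := by
    intro u hu w hw x hx hxu
    exact closure_ord H hH v C B g1 hriB hnc (t - 1) hreg (by rw [g4, t3]; omega) hBsz i0 hi0
      u hu w hw x hx hxu
  apply blocks_of H hH (t - 1)
  · intro f hf hw
    obtain ⟨w, hw⟩ := hw
    obtain ⟨u, hu1, hu2⟩ := exists_inj_of_card f hf
    have huS : u ∈ Y825.KS.Sh H d := by
      rw [Y825.KS.mem_Sh]
      exact ⟨hu1, w, by rw [mem_Nb, hu2]; exact hw⟩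
    have := hreg u huS
    rw [Nb_eq_N, hu2] at this
    exact this
  · intro f w y x hf hw hy hxy hx
    obtain ⟨u, hu1, hu2, hu3⟩ := exists_order f hf y hy i0
    have hwN : w ∈ Nb H u := by rw [mem_Nb, hu2]; exact hw
    have huS : u ∈ Y825.KS.Sh H d := by
      rw [Y825.KS.mem_Sh]
      exact ⟨hu1, w, hwN⟩
    have h1 := hclo u huS w hwN x (by
      rw [mem_Nb, image_update u hu1, hu2, hu3]; exact hx) (by rw [hu3]; exact hxy)
    rw [mem_Nb, hu2] at h1
    exact h1

end main

end Pool.Agent.H802.KalaiEq
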