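import Pool.Graph.R_seed8.Y825.KS.Shadow

/-! Rooted tight trees: number of vertices, free choice of the root facet, and free choice of the
edge grafted last at the root. -/

set_option autoImplicit false

namespace Pool.Agent.H802.KalaiEq

open Finset ES903 H223R3.Kalai H223R3.Kalai.HT

section trees

variable {W : Type*} {d : ℕ} [DecidableEq W]

theorem card_nv (t : HT W d) (h : t.Good) : t.nv.card = t.size := by
  induction t with
  | node a => simp [nv, size]
  | graft v C B ihC ihB =>
    obtain ⟨hC, hB, hr, hv, hvB, hvC, hCC, hCB, hCr⟩ := h
    show (insert v ((univ.biUnion fun i => nv (C i)) ∪ nv B)).card = (∑ i, size (C i)) + size B + 1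
    rw [Finset.card_insert_of_notMem, Finset.card_union_of_disjoint, Finset.card_biUnion, ihB hB]
    · rw [Finset.sum_congr rfl (fun i _ => ihC i (hC i))]
    · intro i _ j _ hij
      exact hCC i j hij
    · rw [Finset.disjoint_biUnion_left]
      intro i _
      exact hCB i
    · rw [Finset.mem_union, Finset.mem_biUnion]
      rintro (⟨i, _, hi⟩ | h)
      · exact hvC i hi
      · exact hvB h

theorem edges_eq_empty (t : HT W d) (h : t.size = 0) : t.edges = ∅ := by
  cases t with
  | node a => rfl
  | graft v C B => simp [size] at h

/-- every tight tree is the edge set of a `Good` rooted tree, the root being any ordering of any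
facet of any of its edges -/
theorem exists_HT_root (e : ℕ → Finset W) (t : ℕ) (h0 : (e 0).card = d + 1)
    (hstep : ∀ i, 0 < i → i < t → ∃ j, j < i ∧ ∃ S : Finset W, S ⊆ e j ∧ S.card = d ∧
      ∃ v : W, v ∉ (Finset.range i).biUnion e ∧ e i = insert v S) :
    ∀ m, m + 1 ≤ t → ∀ k, k ≤ m → ∀ a : Fin d → W, Function.Injective a → univ.image a ⊆ e k →
      ∃ T : HT W d, T.Good ∧ T.root = a ∧ T.size = m + 1 ∧
      T.edges = (Finset.range (m + 1)).image e ∧
      T.nv ∪ univ.image T.root = (Finset.range (m + 1)).biUnion e := by
  intro m
  induction m with
  | zero =>
    intro _ k hk a ha hak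
    obtain rfl : k = 0 := by omega
    have hca : (univ.image a).card = d := by
      rw [Finset.card_image_of_injective _ ha, Finset.card_univ, Fintype.card_fin]
    obtain ⟨y, hy⟩ : ∃ y, y ∈ e 0 \ univ.image a := by
      rw [← Finset.Nonempty, ← Finset.card_pos, Finset.card_sdiff_of_subset hak]; omega
    rw [Finset.mem_sdiff] at hy
    have hE : insert y (univ.image a) = e 0 := by
      apply Finset.eq_of_subset_of_card_le
      · exact Finset.insert_subset hy.1 hak
      · rw [Finset.card_insert_of_notMem hy.2]; omega
    obtain ⟨c1, c2, c3, c4, c5⟩ := addRoot_ext y (node a) trivial hy.2 (by simp [nv])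
    refine ⟨(node a).addRoot y, c1, c2, ?_, ?_, ?_⟩
    · rw [c3]; rfl
    · rw [c4]
      show insert (insert y (univ.image a)) ∅ = _
      rw [hE]
      simp
    · rw [c5, c2]
      show insert y ∅ ∪ univ.image a = _
      rw [Finset.insert_union, Finset.empty_union, hE]
      simp
  | succ m ih =>
    intro hm k hk a ha hak
    obtain ⟨j, hj, S, hSj, hSc, v, hv, hev⟩ := hstep (m + 1) (by omega) (by omega)
    have hrange : (Finset.range (m + 1 + 1)).biUnion e =
          e (m + 1) ∪ (Finset.range (m + 1)).biUnion e := by
      rw [Finset.range_add_one (n := m + 1), Finset.biUnion_insert]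
    have hrimg : (Finset.range (m + 1 + 1)).image e =
          insert (e (m + 1)) ((Finset.range (m + 1)).image e) := by
      rw [Finset.range_add_one (n := m + 1), Finset.image_insert]
    have hSX : S ⊆ (Finset.range (m + 1)).biUnion e :=
      hSj.trans (Finset.subset_biUnion_of_mem e (Finset.mem_range.2 hj))
    have hca : (univ.image a).card = d := by
      rw [Finset.card_image_of_injective _ ha, Finset.card_univ, Fintype.card_fin]
    by_cases hk' : k ≤ m
    · obtain ⟨T, t1, t2, t3, t4, t5⟩ := ih (by omega) k hk' a ha hak
      have hE : e j ∈ T.edges := by
        rw [t4]; exact Finset.mem_image_of_mem _ (Finset.mem_range.2 hj)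
      rw [← t5] at hv
      obtain ⟨T', c1, c2, c3, c4, c5⟩ := exists_ext v S hSc (e j) hSj T t1 (by rw [t2]; exact ha) hE
        (fun h => hv (Finset.mem_union_left _ h)) (fun h => hv (Finset.mem_union_right _ h))
      refine ⟨T', c1, by rw [c2]; exact t2, by rw [c3, t3], by rw [c4, t4, ← hev, hrimg], ?_⟩
      rw [c5, c2, Finset.insert_union, t5, hrange, hev, Finset.insert_union,
        Finset.union_eq_right.2 hSX]
    · obtain rfl : k = m + 1 := by omega
      by_cases hSa : univ.image a = S
      · obtain ⟨T, t1, t2, t3, t4, t5⟩ := ih (by omega) j (by omega) a ha (by rw [hSa]; exact hSj)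
        have hv' := hv
        rw [← t5] at hv'
        obtain ⟨c1, c2, c3, c4, c5⟩ := addRoot_ext v T t1
          (fun h => hv' (Finset.mem_union_right _ h)) (fun h => hv' (Finset.mem_union_left _ h))
        refine ⟨T.addRoot v, c1, by rw [c2]; exact t2, by rw [c3, t3], ?_, ?_⟩
        · rw [c4, t4, hrimg, hev, t2, hSa]
        · rw [c5, c2, Finset.insert_union, t5, hrange, hev, Finset.insert_union,
            Finset.union_eq_right.2 hSX]
      · -- the facet contains `v`
        have hvS : v ∉ S := fun h => hv (hSX h)
        have hva : v ∈ univ.image a := by
          by_contra hcon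
          apply hSa
          apply Finset.eq_of_subset_of_card_le
          · intro z hz
            have := hak hz
            rw [hev, Finset.mem_insert] at this
            rcases this with rfl | h
            · exact absurd hz hcon
            · exact h
          · rw [hca, hSc]
        obtain ⟨i, _, hi⟩ := Finset.mem_image.1 hva
        obtain ⟨y, hyS, hya⟩ : ∃ y, y ∈ S ∧ y ∉ univ.image a := by
          by_contra hcon
          push Not at hcon
          have h1 : insert v S ⊆ univ.image a := Finset.insert_subset hva (fun z hz => hcon z hz)
          have h2 := Finset.card_le_card h1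
          rw [Finset.card_insert_of_notMem hvS] at h2
          omega
        have hyv : ∀ j', a j' ≠ y := fun j' hj' => hya (hj' ▸ Finset.mem_image_of_mem _ (Finset.mem_univ j'))
        have hbinj : Function.Injective (Function.update a i y) := update_inj a ha i y hyv
        have hbS : univ.image (Function.update a i y) = S := by
          apply Finset.eq_of_subset_of_card_le
          · intro z hz
            obtain ⟨j', _, hj'⟩ := Finset.mem_image.1 hz
            by_cases hji : j' = i
            · subst hji
              rw [Function.update_self] at hj'
              rw [← hj']; exact hyS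
            · rw [Function.update_of_ne hji] at hj'
              have hz2 : z ∈ e (m + 1) := hak (Finset.mem_image.2 ⟨j', Finset.mem_univ _, hj'⟩)
              rw [hev, Finset.mem_insert] at hz2
              rcases hz2 with h | h
              · exfalso
                apply hji
                apply ha
                rw [hj', hi, h]
              · exact h
          · rw [Finset.card_image_of_injective _ hbinj, Finset.card_univ, Fintype.card_fin, hSc]
        obtain ⟨T, t1, t2, t3, t4, t5⟩ := ih (by omega) j (by omega) (Function.update a i y) hbinj
          (by rw [hbS]; exact hSj)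
        have hvT : v ∉ T.nv ∧ v ∉ univ.image T.root := by
          rw [← t5, Finset.mem_union] at hv
          exact ⟨fun h => hv (Or.inl h), fun h => hv (Or.inr h)⟩
        have hnr := nv_root T t1
        have hyT : y ∉ T.nv := by
          intro h
          apply Finset.disjoint_left.1 hnr h
          rw [t2, hbS]; exact hyS
        -- the tree rooted at `a`
        obtain ⟨C, hCdef⟩ : ∃ C : Fin d → HT W d, C = fun j' => if j' = i then T else
          node (Function.update a j' y) := ⟨_, rfl⟩
        have hCi : C i = T := by rw [hCdef]; simp
        have hCn : ∀ j', j' ≠ i → C j' = node (Function.update a j' y) := by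
          intro j' hj'
          rw [hCdef]; simp [hj']
        have haT : Disjoint T.nv (univ.image a) := by
          rw [Finset.disjoint_left]
          intro z hz hza
          obtain ⟨j', _, hj'⟩ := Finset.mem_image.1 hza
          by_cases hji : j' = i
          · subst hji
            rw [hi] at hj'
            exact hvT.1 (hj' ▸ hz)
          · apply Finset.disjoint_left.1 hnr hz
            rw [t2]
            exact Finset.mem_image.2 ⟨j', Finset.mem_univ _, by
              rw [Function.update_of_ne hji]; exact hj'⟩
        have hbi1 : ∀ (α : Type _) [DecidableEq α] (g : HT W d → Finset α),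
            (∀ b, g (node b) = ∅) → (univ.biUnion fun j' => g (C j')) = g T := by
          intro α _ g hg
          ext z
          simp only [Finset.mem_biUnion, Finset.mem_univ, true_and]
          constructor
          · rintro ⟨j', hj'⟩
            by_cases hji : j' = i
            · subst hji; rw [hCi] at hj'; exact hj'
            · rw [hCn j' hji, hg] at hj'
              simp at hj'
          · intro hz
            exact ⟨i, by rw [hCi]; exact hz⟩
        refine ⟨graft y C (node a), ?_, rfl, ?_, ?_, ?_⟩
        · refine ⟨?_, trivial, ?_, ?_, ?_, ?_, ?_, ?_, ?_⟩
          · intro j'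
            by_cases hji : j' = i
            · subst hji; rw [hCi]; exact t1
            · rw [hCn j' hji]; trivial
          · intro j'
            by_cases hji : j' = i
            · subst hji; rw [hCi]; exact t2
            · rw [hCn j' hji]; rfl
          · exact hya
          · simp [nv]
          · intro j'
            by_cases hji : j' = i
            · subst hji; rw [hCi]; exact hyT
            · rw [hCn j' hji]; simp [nv]
          · intro j1 j2 hj12
            by_cases hji : j1 = i
            · have : j2 ≠ i := fun h => hj12 (hji.trans h.symm)
              rw [hCn j2 this]; simp [nv]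
            · rw [hCn j1 hji]; simp [nv]
          · intro j'; simp [nv]
          · intro j'
            show Disjoint (nv (C j')) (univ.image a)
            by_cases hji : j' = i
            · subst hji; rw [hCi]; exact haT
            · rw [hCn j' hji]; simp [nv]
        · show (∑ j', size (C j')) + 0 + 1 = m + 1 + 1
          have h1 : ∑ j', size (C j') = size T := by
            rw [Finset.sum_eq_single i]
            · rw [hCi]
            · intro j' _ hj'
              rw [hCn j' hj']; rfl
            · intro h; exact absurd (Finset.mem_univ i) h
          rw [h1, t3]
        · show insert (insert y (univ.image a)) ((univ.biUnion fun j' => edges (C j')) ∪ ∅) = _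
          rw [hbi1 _ edges (fun _ => rfl), Finset.union_empty, t4, hrimg]
          congr 1
          rw [← insert_update a i y, hi, hbS, hev]
        · show (insert y ((univ.biUnion fun j' => nv (C j')) ∪ ∅)) ∪ univ.image a = _
          rw [hbi1 _ nv (fun _ => rfl), Finset.union_empty, hrange, ← t5, t2, hbS, hev]
          have h3 : insert y (univ.image a) = insert v S := by
            rw [← insert_update a i y, hi, hbS]
          calc insert y T.nv ∪ univ.image a = T.nv ∪ insert y (univ.image a) := by
                rw [Finset.insert_union, Finset.union_insert]
            _ = T.nv ∪ insert v S := by rw [h3]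
            _ = insert v S ∪ (T.nv ∪ S) := by
                ext z
                simp only [Finset.mem_union, Finset.mem_insert]
                tauto

/-- no edge in the side branches contains the whole root -/
theorem side_not_root (v : W) (C : Fin d → HT W d) (B : HT W d) (h : (graft v C B).Good)
    (hri : Function.Injective B.root) (i : Fin d) (E : Finset W) (hE : E ∈ (C i).edges) :
    B.root i ∉ E := by
  obtain ⟨hC, hB, hr, hv, hvB, hvC, hCC, hCB, hCr⟩ := h
  intro hmem
  rcases Finset.mem_union.1 (edges_sub (C i) (hC i) E hE hmem) with h1 | h1
  · exact Finset.disjoint_left.1 (hCr i) h1 (Finset.mem_image_of_mem _ (Finset.mem_univ i))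
  · rw [hr i] at h1
    obtain ⟨j, _, hj⟩ := Finset.mem_image.1 h1
    by_cases hji : j = i
    · subst hji
      rw [Function.update_self] at hj
      exact hv (Finset.mem_image.2 ⟨j, Finset.mem_univ _, hj.symm⟩)
    · rw [Function.update_of_ne hji] at hj
      exact hji (hri hj)

theorem insert_swap {α : Type*} [DecidableEq α] (a b : α) (X Y Z : Finset α) :
    insert a (X ∪ insert b (Y ∪ Z)) = insert b (Y ∪ insert a (X ∪ Z)) := by
  ext z
  simp only [Finset.mem_insert, Finset.mem_union]
  tauto

/-- any edge containing the root can be taken to be grafted last -/
theorem top (t : HT W d) (h : t.Good) (hri : Function.Injective t.root) (E : Finset W)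
    (hE : E ∈ t.edges) (hrE : univ.image t.root ⊆ E) :
    ∃ (v : W) (C : Fin d → HT W d) (B : HT W d), (graft v C B).Good ∧ B.root = t.root ∧
      E = insert v (univ.image t.root) ∧ (graft v C B).size = t.size ∧
      (graft v C B).edges = t.edges ∧ (graft v C B).nv = t.nv := by
  induction t with
  | node a => simp [edges] at hE
  | graft v C B ihC ihB =>
    have h0 := h
    obtain ⟨hC, hB, hr, hv, hvB, hvC, hCC, hCB, hCr⟩ := h
    have hri' : Function.Injective B.root := hri
    have he' : E ∈ insert (insert v (univ.image (root B)))
        ((univ.biUnion fun i => edges (C i)) ∪ edges B) := hE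
    rcases Finset.mem_insert.1 he' with h | h
    · exact ⟨v, C, B, h0, rfl, h, rfl, rfl, rfl⟩
    · rcases Finset.mem_union.1 h with h | h
      · obtain ⟨i, _, hi⟩ := Finset.mem_biUnion.1 h
        exact absurd (hrE (Finset.mem_image_of_mem _ (Finset.mem_univ i)))
          (side_not_root v C B h0 hri' i E hi)
      · obtain ⟨v', C', B', g, g1, g2, g3, g4, g5⟩ := ihB hB hri' h hrE
        have g0 := g
        obtain ⟨gC, gB, gr, gv, gvB, gvC, gCC, gCB, gCr⟩ := g
        have hsubB' : nv B' ⊆ nv B := by
          rw [← g5]
          show nv B' ⊆ insert v' ((univ.biUnion fun i => nv (C' i)) ∪ nv B')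
          exact (Finset.subset_union_right).trans (Finset.subset_insert _ _)
        have hsubC' : ∀ i, nv (C' i) ⊆ nv B := by
          intro i
          rw [← g5]
          show nv (C' i) ⊆ insert v' ((univ.biUnion fun i => nv (C' i)) ∪ nv B')
          exact ((Finset.subset_biUnion_of_mem (fun i => nv (C' i)) (Finset.mem_univ i)).trans
            (Finset.subset_union_left)).trans (Finset.subset_insert _ _)
        have hv'B : v' ∈ nv B := by
          rw [← g5]
          exact Finset.mem_insert_self _ _
        have hinner : (graft v C B').Good := by
          refine ⟨hC, gB, ?_, ?_, fun h => hvB (hsubB' h), hvC, hCC, ?_, ?_⟩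
          · rw [g1]; exact hr
          · rw [g1]; exact hv
          · intro i
            exact Finset.disjoint_of_subset_right hsubB' (hCB i)
          · rw [g1]; exact hCr
        refine ⟨v', C', graft v C B', ?_, g1, g2, ?_, ?_, ?_⟩
        · refine ⟨gC, hinner, gr, gv, ?_, gvC, gCC, ?_, gCr⟩
          · intro h'
            have h'' : v' ∈ insert v ((univ.biUnion fun i => nv (C i)) ∪ nv B') := h'
            rcases Finset.mem_insert.1 h'' with h3 | h3
            · exact hvB (h3 ▸ hv'B)
            · rcases Finset.mem_union.1 h3 with h4 | h4
              · obtain ⟨i, _, hi⟩ := Finset.mem_biUnion.1 h4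
                exact Finset.disjoint_left.1 (hCB i) hi hv'B
              · exact gvB h4
          · intro i
            show Disjoint (nv (C' i)) (insert v ((univ.biUnion fun i => nv (C i)) ∪ nv B'))
            rw [Finset.disjoint_insert_right, Finset.disjoint_union_right,
              Finset.disjoint_biUnion_right]
            refine ⟨fun h3 => hvB (hsubC' i h3), fun j _ => ?_, gCB i⟩
            exact Finset.disjoint_of_subset_left (hsubC' i) (hCB j).symm
        · have g3' : (∑ i, size (C' i)) + size B' + 1 = size B := g3
          show (∑ i, size (C' i)) + ((∑ i, size (C i)) + size B' + 1) + 1 =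
            (∑ i, size (C i)) + size B + 1
          omega
        · have g4' : insert (insert v' (univ.image (root B')))
            ((univ.biUnion fun i => edges (C' i)) ∪ edges B') = edges B := g4
          show insert (insert v' (univ.image (root B')))
            ((univ.biUnion fun i => edges (C' i)) ∪ insert (insert v (univ.image (root B')))
              ((univ.biUnion fun i => edges (C i)) ∪ edges B')) =
            insert (insert v (univ.image (root B))) ((univ.biUnion fun i => edges (C i)) ∪ edges B)
          rw [← g4', g1]
          exact insert_swap _ _ _ _ _
        · have g5' : insert v' ((univ.biUnion fun i => nv (C' i)) ∪ nv B') = nv B := g5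
          show insert v' ((univ.biUnion fun i => nv (C' i)) ∪ insert v
              ((univ.biUnion fun i => nv (C i)) ∪ nv B')) =
            insert v ((univ.biUnion fun i => nv (C i)) ∪ nv B)
          rw [← g5']
          exact insert_swap _ _ _ _ _

end trees

end Pool.Agent.H802.KalaiEq
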